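import Mathlib

set_option autoImplicit false

namespace Pool.Agent.Helper17.NRC

open Polynomial Finset

variable {F : Type} [Field F] {m : ℕ}

/-- The vector `(t^(k-1), ..., t, 1)` of length `k`, and `(1, 0, ..., 0)` for `t = ∞`. -/
def nu {F : Type} [Field F] (k : ℕ) : Option F → (Fin k → F)
  | some t => fun i => t ^ (k - 1 - (i : ℕ))
  | none => fun i => if (i : ℕ) = 0 then 1 else 0

/-- A set of points is a normal rational curve. -/
def IsNRC {F : Type} [Field F] {k : ℕ} (C : Set (Submodule F (Fin k → F))) : Prop :=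
  ∃ e : (Fin k → F) ≃ₗ[F] (Fin k → F), C = Set.range fun t : Option F => F ∙ e (nu k t)

theorem lin_of_poly (P : Fin (m + 2) → F[X]) (hP : ∀ i, (P i).natDegree ≤ m + 1) :
    ∃ M : (Fin (m + 2) → F) →ₗ[F] (Fin (m + 2) → F),
      (∀ t i, M (nu (m + 2) (some t)) i = (P i).eval t) ∧
      ∀ i, M (nu (m + 2) none) i = (P i).coeff (m + 1) := by
  refine ⟨Matrix.toLin' (Matrix.of fun i j => (P i).coeff (m + 1 - (j : ℕ))), ?_, ?_⟩
  · intro t i
    rw [Matrix.toLin'_apply, Matrix.mulVec, dotProduct]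
    rw [Polynomial.eval_eq_sum_range' (n := m + 2) (by have := hP i; omega)]
    rw [← Finset.sum_range_reflect, ← Fin.sum_univ_eq_sum_range
      (fun j => (P i).coeff (m + 2 - 1 - j) * t ^ (m + 2 - 1 - j)) (m + 2)]
    refine Finset.sum_congr rfl fun j _ => ?_
    rfl
  · intro i
    rw [Matrix.toLin'_apply, Matrix.mulVec, dotProduct]
    rw [Finset.sum_eq_single (0 : Fin (m + 2))]
    · simp [nu]
    · intro j _ hj
      have : (j : ℕ) ≠ 0 := fun h => hj (Fin.ext h)
      simp [nu, this]
    · simp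

theorem poly_of_lin (M : (Fin (m + 2) → F) →ₗ[F] (Fin (m + 2) → F)) :
    ∃ P : Fin (m + 2) → F[X], (∀ i, (P i).natDegree ≤ m + 1) ∧
      (∀ t i, M (nu (m + 2) (some t)) i = (P i).eval t) ∧
      ∀ i, M (nu (m + 2) none) i = (P i).coeff (m + 1) := by
  have key : ∀ (x : Fin (m + 2) → F) (i), M x i = ∑ j, x j * M (Pi.single j 1) i := by
    intro x i
    conv_lhs => rw [← LinearMap.sum_single_apply (φ := fun _ : Fin (m+2) => F) x]
    rw [map_sum, Finset.sum_apply]
    refine Finset.sum_congr rfl fun j _ => ?_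
    have : (Pi.single j (x j) : Fin (m + 2) → F) = x j • Pi.single j 1 := by
      rw [← Pi.single_smul, smul_eq_mul, mul_one]
    simp [this]
  refine ⟨fun i => ∑ j : Fin (m + 2), C (M (Pi.single j 1) i) * X ^ (m + 1 - (j : ℕ)), ?_, ?_, ?_⟩
  · intro i
    refine Polynomial.natDegree_sum_le_of_forall_le _ _ fun j _ => ?_
    refine (Polynomial.natDegree_C_mul_X_pow_le _ _).trans (by omega)
  · intro t i
    rw [key, Polynomial.eval_finsetSum]
    refine Finset.sum_congr rfl fun j _ => ?_
    rw [eval_mul, eval_C, eval_pow, eval_X, mul_comm]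
    rfl
  · intro i
    rw [key, Polynomial.finsetSum_coeff]
    refine Finset.sum_congr rfl fun j _ => ?_
    rw [Polynomial.coeff_C_mul_X_pow]
    by_cases hj : (j : ℕ) = 0
    · simp [nu, hj]
    · have : m + 1 ≠ m + 1 - (j : ℕ) := by omega
      simp [nu, hj, this]

/-- the normalised parametrisation -/
def w (b : Fin (m + 2) → F) : Option F → (Fin (m + 2) → F)
  | some t => fun i => ∏ j ∈ univ.erase i, (t - b j)
  | none => fun _ => 1

/-- the polynomial `∏_{j ≠ i} (X - b_j)` -/
noncomputable def Q (b : Fin (m + 2) → F) (i : Fin (m + 2)) : F[X] :=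
  ∏ j ∈ univ.erase i, (X - C (b j))

theorem Q_monic (b : Fin (m + 2) → F) (i : Fin (m + 2)) : (Q b i).Monic :=
  Polynomial.monic_prod_of_monic _ _ fun j _ => Polynomial.monic_X_sub_C (b j)

theorem Q_natDegree (b : Fin (m + 2) → F) (i : Fin (m + 2)) : (Q b i).natDegree = m + 1 := by
  rw [Q, Polynomial.natDegree_prod_of_monic _ _ fun j _ => Polynomial.monic_X_sub_C (b j)]
  simp

theorem Q_eval (b : Fin (m + 2) → F) (i : Fin (m + 2)) (t : F) :
    (Q b i).eval t = w b (some t) i := by
  simp [Q, w, Polynomial.eval_prod]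

theorem w_self (b : Fin (m + 2) → F) (i : Fin (m + 2)) :
    w b (some (b i)) = (∏ j ∈ univ.erase i, (b i - b j)) • Pi.single i 1 := by
  funext i'
  by_cases h : i' = i
  · subst h
    simp [w]
  · simp only [w, Pi.smul_apply, Pi.single_eq_of_ne h, smul_zero]
    exact Finset.prod_eq_zero (Finset.mem_erase.2 ⟨fun h' => h h'.symm, mem_univ i⟩) (sub_self _)

theorem prod_ne (b : Fin (m + 2) → F) (hb : Function.Injective b) (i : Fin (m + 2)) :
    (∏ j ∈ univ.erase i, (b i - b j)) ≠ 0 := by
  rw [Finset.prod_ne_zero_iff]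
  intro j hj
  rw [sub_ne_zero]
  exact fun h => (Finset.mem_erase.1 hj).1 (hb h).symm

theorem exists_equiv_w (b : Fin (m + 2) → F) (hb : Function.Injective b) :
    ∃ e : (Fin (m + 2) → F) ≃ₗ[F] (Fin (m + 2) → F), ∀ t, e (nu (m + 2) t) = w b t := by
  obtain ⟨M, h1, h2⟩ := lin_of_poly (Q b) (fun i => (Q_natDegree b i).le)
  have h3 : ∀ t, M (nu (m + 2) t) = w b t := by
    intro t
    rcases t with _ | t
    · funext i
      rw [h2 i]
      have := Q_monic b i
      rw [Polynomial.Monic, Polynomial.leadingCoeff, Q_natDegree] at this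
      rw [this]
      rfl
    · funext i
      rw [h1, Q_eval]
  have hsurj : Function.Surjective M := by
    rw [← LinearMap.range_eq_top, eq_top_iff]
    have h4 : ∀ i, (Pi.single i 1 : Fin (m + 2) → F) ∈ LinearMap.range M := by
      intro i
      have h5 : (∏ j ∈ univ.erase i, (b i - b j)) • (Pi.single i 1 : Fin (m + 2) → F) ∈
          LinearMap.range M := ⟨nu (m + 2) (some (b i)), by rw [h3, w_self]⟩
      have := (LinearMap.range M).smul_mem (∏ j ∈ univ.erase i, (b i - b j))⁻¹ h5
      rwa [smul_smul, inv_mul_cancel₀ (prod_ne b hb i), one_smul] at this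
    intro x _
    rw [← LinearMap.sum_single_apply (φ := fun _ : Fin (m+2) => F) x]
    refine Submodule.sum_mem _ fun j _ => ?_
    have : (Pi.single j (x j) : Fin (m + 2) → F) = x j • Pi.single j 1 := by
      rw [← Pi.single_smul, smul_eq_mul, mul_one]
    rw [this]
    exact (LinearMap.range M).smul_mem _ (h4 j)
  have hinj : Function.Injective M := LinearMap.injective_iff_surjective.2 hsurj
  exact ⟨LinearEquiv.ofBijective M ⟨hinj, hsurj⟩, fun t => h3 t⟩

end Pool.Agent.Helper17.NRC
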