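import Pool.Agent.Helper17.NRC.A

set_option autoImplicit false

namespace Pool.Agent.Helper17.NRC

open Polynomial Finset

variable {F : Type} [Field F] {m : ℕ}

theorem span_smul {V : Type} [AddCommGroup V] [Module F V] {c : F} (hc : c ≠ 0) (x : V) :
    F ∙ (c • x) = F ∙ x := Submodule.span_singleton_smul_eq (IsUnit.mk0 c hc) x

theorem eq_of_span {V : Type} [AddCommGroup V] [Module F V] {x y : V} (h : F ∙ x = F ∙ y) :
    ∃ c : F, c ≠ 0 ∧ x = c • y := by
  obtain ⟨u, hu⟩ := (Submodule.span_singleton_eq_span_singleton).1 h.symm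
  exact ⟨(u : F), u.ne_zero, hu.symm⟩

/-- change of the parameter: `c` becomes `∞` -/
theorem reparam (b : Fin (m + 2) → F) (hb : Function.Injective b) (c : F) :
    ∃ S : (Fin (m + 2) → F) ≃ₗ[F] (Fin (m + 2) → F),
      S (nu (m + 2) (some 0)) = nu (m + 2) none ∧
      S (nu (m + 2) none) = nu (m + 2) (some c) ∧
      ∀ s : F, s ≠ 0 → S (nu (m + 2) (some s)) = s ^ (m + 1) • nu (m + 2) (some (c + s⁻¹)) := by
  have hdeg : ∀ n : ℕ, ((C c * X + 1 : F[X]) ^ n).natDegree ≤ n := by
    intro n
    refine (Polynomial.natDegree_pow_le).trans ?_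
    have : (C c * X + 1 : F[X]).natDegree ≤ 1 := by
      have : (C c * X + 1 : F[X]) = C c * X + C 1 := by simp
      rw [this]
      exact Polynomial.natDegree_linear_le
    nlinarith
  obtain ⟨M, h1, h2⟩ := lin_of_poly (m := m)
    (fun i => (C c * X + 1 : F[X]) ^ (m + 1 - (i : ℕ)) * X ^ (i : ℕ)) (by
      intro i
      refine (Polynomial.natDegree_mul_le).trans ?_
      have := hdeg (m + 1 - (i : ℕ))
      have h3 : ((X : F[X]) ^ (i : ℕ)).natDegree = i := by simp
      omega)
  have e0 : M (nu (m + 2) (some 0)) = nu (m + 2) none := by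
    funext i
    rw [h1]
    by_cases hi : (i : ℕ) = 0
    · simp [nu, hi]
    · simp [nu, hi]
  have einf : M (nu (m + 2) none) = nu (m + 2) (some c) := by
    funext i
    rw [h2]
    have h3 : m + 1 = (m + 1 - (i : ℕ)) + i := by omega
    conv_lhs => rw [h3]
    rw [Nat.add_sub_cancel, Polynomial.coeff_mul_X_pow]
    have h4 := Polynomial.coeff_pow_of_natDegree_le (p := (C c * X + 1 : F[X])) (n := 1)
      (m := m + 1 - (i : ℕ)) (by
        have : (C c * X + 1 : F[X]) = C c * X + C 1 := by simp
        rw [this]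
        exact Polynomial.natDegree_linear_le)
    rw [mul_one] at h4
    rw [h4]
    have h5 : (C c * X + 1 : F[X]).coeff 1 = c := by
      simp [Polynomial.coeff_one]
    rw [h5]
    rfl
  have es : ∀ s : F, s ≠ 0 →
      M (nu (m + 2) (some s)) = s ^ (m + 1) • nu (m + 2) (some (c + s⁻¹)) := by
    intro s hs
    funext i
    rw [h1]
    simp only [eval_mul, eval_pow, eval_add, eval_C, eval_X, eval_one, Pi.smul_apply, smul_eq_mul]
    show _ = s ^ (m + 1) * (c + s⁻¹) ^ (m + 1 - (i : ℕ))
    have h3 : m + 1 = (m + 1 - (i : ℕ)) + i := by omega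
    have h4 : c * s + 1 = s * (c + s⁻¹) := by field_simp
    rw [h4, mul_pow]
    conv_rhs => rw [h3, pow_add]
    rw [Nat.add_sub_cancel]
    ring
  have hr : ∀ t, nu (m + 2) t ∈ LinearMap.range M := by
    intro t
    rcases t with _ | t
    · exact ⟨_, e0⟩
    · by_cases ht : t = c
      · rw [ht]
        exact ⟨_, einf⟩
      · have hs : (t - c)⁻¹ ≠ 0 := inv_ne_zero (sub_ne_zero.2 ht)
        have h5 := es _ hs
        rw [inv_inv, add_sub_cancel] at h5
        have h6 : ((t - c)⁻¹ ^ (m + 1)) • nu (m + 2) (some t) ∈ LinearMap.range M := ⟨_, h5⟩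
        have h7 := (LinearMap.range M).smul_mem ((t - c)⁻¹ ^ (m + 1))⁻¹ h6
        rwa [smul_smul, inv_mul_cancel₀ (pow_ne_zero _ hs), one_smul] at h7
  have hsurj : Function.Surjective M := by
    rw [← LinearMap.range_eq_top]
    obtain ⟨e, he⟩ := exists_equiv_w b hb
    have h8 : Submodule.map (e : (Fin (m + 2) → F) →ₗ[F] (Fin (m + 2) → F)) (LinearMap.range M) =
        ⊤ := by
      rw [eq_top_iff]
      intro x _
      rw [← LinearMap.sum_single_apply (φ := fun _ : Fin (m+2) => F) x]
      refine Submodule.sum_mem _ fun j _ => ?_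
      have h9 : (∏ j' ∈ univ.erase j, (b j - b j')) • (Pi.single j 1 : Fin (m + 2) → F) ∈
          Submodule.map (e : (Fin (m + 2) → F) →ₗ[F] (Fin (m + 2) → F)) (LinearMap.range M) :=
        ⟨nu (m + 2) (some (b j)), hr _, by
          show e _ = _
          rw [he, w_self]⟩
      have h10 := Submodule.smul_mem _ (x j * (∏ j' ∈ univ.erase j, (b j - b j'))⁻¹) h9
      rw [smul_smul, mul_assoc, inv_mul_cancel₀ (prod_ne b hb j), mul_one] at h10
      have h11 : (Pi.single j (x j) : Fin (m + 2) → F) = x j • Pi.single j 1 := by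
        rw [← Pi.single_smul, smul_eq_mul, mul_one]
      rw [h11]
      exact h10
    have h12 := congrArg (Submodule.map (e.symm : (Fin (m + 2) → F) →ₗ[F] (Fin (m + 2) → F))) h8
    rw [← Submodule.map_comp] at h12
    simpa using h12
  have hinj : Function.Injective M := LinearMap.injective_iff_surjective.2 hsurj
  exact ⟨LinearEquiv.ofBijective M ⟨hinj, hsurj⟩, e0, einf, es⟩

theorem reparam_nrc (b : Fin (m + 2) → F) (hb : Function.Injective b)
    (e : (Fin (m + 2) → F) ≃ₗ[F] (Fin (m + 2) → F)) (c : Option F) :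
    ∃ e' : (Fin (m + 2) → F) ≃ₗ[F] (Fin (m + 2) → F),
      (Set.range fun t : Option F => F ∙ e' (nu (m + 2) t)) =
        (Set.range fun t : Option F => F ∙ e (nu (m + 2) t)) ∧
      e' (nu (m + 2) none) = e (nu (m + 2) c) := by
  rcases c with _ | c
  · exact ⟨e, rfl, rfl⟩
  obtain ⟨S, h0, h1, h2⟩ := reparam b hb c
  refine ⟨S.trans e, ?_, by rw [LinearEquiv.trans_apply, h1]⟩
  ext P
  constructor
  · rintro ⟨t, rfl⟩
    rcases t with _ | t
    · exact ⟨some c, by simp only [LinearEquiv.trans_apply, h1]⟩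
    · by_cases ht : t = 0
      · subst ht
        exact ⟨none, by simp only [LinearEquiv.trans_apply, h0]⟩
      · refine ⟨some (c + t⁻¹), ?_⟩
        simp only [LinearEquiv.trans_apply, h2 t ht, map_smul]
        rw [span_smul (pow_ne_zero _ ht)]
  · rintro ⟨t, rfl⟩
    rcases t with _ | t
    · exact ⟨some 0, by simp only [LinearEquiv.trans_apply, h0]⟩
    · by_cases ht : t = c
      · subst ht
        exact ⟨none, by simp only [LinearEquiv.trans_apply, h1]⟩
      · have hs : (t - c)⁻¹ ≠ 0 := inv_ne_zero (sub_ne_zero.2 ht)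
        refine ⟨some (t - c)⁻¹, ?_⟩
        simp only [LinearEquiv.trans_apply, h2 _ hs, map_smul]
        rw [span_smul (pow_ne_zero _ hs), inv_inv, add_sub_cancel]

/-- the normal form of a curve through the coordinate points with another point at `∞` -/
theorem normal_form (e : (Fin (m + 2) → F) ≃ₗ[F] (Fin (m + 2) → F)) (b : Fin (m + 2) → F)
    (hb : ∀ i, F ∙ e (nu (m + 2) (some (b i))) = F ∙ (Pi.single i 1 : Fin (m + 2) → F)) :
    Function.Injective b ∧ ∃ a : Fin (m + 2) → F, (∀ i, a i ≠ 0) ∧
      (∀ t i, e (nu (m + 2) t) i = a i * w b t i) := by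
  classical
  have hinj : Function.Injective b := by
    intro i j hij
    by_contra hne
    have h1 : F ∙ (Pi.single i 1 : Fin (m + 2) → F) = F ∙ (Pi.single j 1 : Fin (m + 2) → F) := by
      rw [← hb i, ← hb j, hij]
    obtain ⟨c, hc, h2⟩ := eq_of_span h1
    have h3 := congrFun h2 i
    simp [Pi.single_eq_of_ne hne] at h3
  refine ⟨hinj, ?_⟩
  obtain ⟨P, hP, h1, h2⟩ := poly_of_lin (e : (Fin (m + 2) → F) →ₗ[F] (Fin (m + 2) → F))
  have hroot : ∀ i j, j ≠ i → (P i).eval (b j) = 0 := by
    intro i j hji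
    rw [← h1]
    obtain ⟨c, hc, h3⟩ := eq_of_span (hb j)
    show e (nu (m + 2) (some (b j))) i = 0
    rw [h3]
    simp [Pi.single_eq_of_ne hji.symm]
  have hnr : ∀ i, (P i).eval (b i) ≠ 0 := by
    intro i
    rw [← h1]
    obtain ⟨c, hc, h3⟩ := eq_of_span (hb i)
    show e (nu (m + 2) (some (b i))) i ≠ 0
    rw [h3]
    simpa using hc
  have hPQ : ∀ i, P i = C ((P i).coeff (m + 1)) * Q b i := by
    intro i
    have hcard : ((univ.erase i).image b).card = m + 1 := by
      rw [Finset.card_image_of_injective _ hinj, Finset.card_erase_of_mem (mem_univ i)]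
      simp
    refine Polynomial.eq_of_degree_sub_lt_of_eval_finset_eq ((univ.erase i).image b) ?_ ?_
    · rw [hcard, Polynomial.degree_lt_iff_coeff_zero]
      intro n hn
      rw [Polynomial.coeff_sub, Polynomial.coeff_C_mul]
      rcases hn.lt_or_eq with h | h
      · have e1 : (P i).coeff n = 0 :=
          Polynomial.coeff_eq_zero_of_natDegree_lt (lt_of_le_of_lt (hP i) h)
        have e2 : (Q b i).coeff n = 0 :=
          Polynomial.coeff_eq_zero_of_natDegree_lt (by rw [Q_natDegree]; exact h)
        rw [e1, e2]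
        simp
      · subst h
        have h5 := Q_monic b i
        rw [Polynomial.Monic, Polynomial.leadingCoeff, Q_natDegree] at h5
        rw [h5]
        simp
    · intro x hx
      obtain ⟨j, hj, rfl⟩ := Finset.mem_image.1 hx
      rw [hroot i j (Finset.mem_erase.1 hj).1, Polynomial.eval_mul, Q_eval]
      have : w b (some (b j)) i = 0 := by
        rw [w_self]
        simp [Pi.single_eq_of_ne (Finset.mem_erase.1 hj).1.symm]
      rw [this, mul_zero]
  refine ⟨fun i => (P i).coeff (m + 1), ?_, ?_⟩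
  · intro i h0
    have h0' : (P i).coeff (m + 1) = 0 := h0
    apply hnr i
    rw [hPQ i, h0']
    simp
  · intro t i
    rcases t with _ | t
    · show e (nu (m + 2) none) i = (P i).coeff (m + 1) * 1
      rw [mul_one]
      exact h2 i
    · have h3 := h1 t i
      show e (nu (m + 2) (some t)) i = (P i).coeff (m + 1) * w b (some t) i
      rw [← Q_eval]
      have h4 : (P i).eval t = (P i).coeff (m + 1) * (Q b i).eval t := by
        conv_lhs => rw [hPQ i]
        rw [eval_mul, eval_C]
      rw [← h4]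
      exact h3

end Pool.Agent.Helper17.NRC
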