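import Pool.Agent.Helper17.NRC.B

set_option autoImplicit false

namespace Pool.Agent.Helper17.NRC

open Finset

variable {F : Type} [Field F] {m : ℕ}

/-- the curve in normal form -/
def CS (b : Fin (m + 2) → F) : Set (Submodule F (Fin (m + 2) → F)) :=
  Set.range fun t : Option F => F ∙ w b t

/-- the all-ones vector -/
def one1 (F : Type) [Field F] (m : ℕ) : Fin (m + 2) → F := fun _ => 1

theorem CS_isNRC {b : Fin (m + 2) → F} (hb : Function.Injective b) : IsNRC (CS b) := by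
  obtain ⟨e, he⟩ := exists_equiv_w b hb
  refine ⟨e, ?_⟩
  simp only [he]
  rfl

theorem CS_single {b : Fin (m + 2) → F} (hb : Function.Injective b) (i : Fin (m + 2)) :
    F ∙ (Pi.single i 1 : Fin (m + 2) → F) ∈ CS b :=
  ⟨some (b i), by
    show F ∙ w b (some (b i)) = _
    rw [w_self, span_smul (prod_ne b hb i)]⟩

theorem CS_one (b : Fin (m + 2) → F) : F ∙ one1 F m ∈ CS b := ⟨none, rfl⟩

theorem zero_ne_one_fin : (0 : Fin (m + 2)) ≠ 1 := by
  intro h
  have := congrArg Fin.val h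
  simp at this

theorem one_ne_single (i : Fin (m + 2)) :
    F ∙ one1 F m ≠ F ∙ (Pi.single i 1 : Fin (m + 2) → F) := by
  intro h
  obtain ⟨c, hc, h1⟩ := eq_of_span h
  obtain ⟨j, hj⟩ : ∃ j : Fin (m + 2), j ≠ i := by
    by_cases hi : i = 0
    · exact ⟨1, by rw [hi]; exact zero_ne_one_fin.symm⟩
    · exact ⟨0, fun h => hi h.symm⟩
  have := congrFun h1 j
  simp [one1, Pi.single_eq_of_ne hj] at this

theorem nrc_frame (hF : ∃ b0 : Fin (m + 2) → F, Function.Injective b0)
    {C : Set (Submodule F (Fin (m + 2) → F))} (hC : IsNRC C)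
    (h1 : ∀ i, F ∙ (Pi.single i 1 : Fin (m + 2) → F) ∈ C) (h2 : F ∙ one1 F m ∈ C) :
    ∃ b : Fin (m + 2) → F, Function.Injective b ∧ C = CS b := by
  obtain ⟨b0, hb0⟩ := hF
  obtain ⟨e, rfl⟩ := hC
  obtain ⟨c, hc⟩ := h2
  obtain ⟨e', he', he0⟩ := reparam_nrc b0 hb0 e c
  have h3 : ∀ i, ∃ t : F, F ∙ e' (nu (m + 2) (some t)) = F ∙ (Pi.single i 1 : Fin (m + 2) → F) := by
    intro i
    have := h1 i
    rw [← he'] at this
    obtain ⟨t, ht⟩ := this
    rcases t with _ | t
    · exfalso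
      refine one_ne_single (F := F) i ?_
      rw [← ht, ← hc]
      show F ∙ e (nu (m + 2) c) = F ∙ e' (nu (m + 2) none)
      rw [he0]
    · exact ⟨t, ht⟩
  choose b hb using h3
  obtain ⟨hinj, a, ha, hw⟩ := normal_form e' b hb
  refine ⟨b, hinj, ?_⟩
  have h4 : F ∙ e' (nu (m + 2) none) = F ∙ one1 F m := by rw [he0]; exact hc
  obtain ⟨κ, hκ, h5⟩ := eq_of_span h4
  have h6 : ∀ i, a i = κ := by
    intro i
    have h7 := congrFun h5 i
    rw [hw none i] at h7
    simpa [w, one1] using h7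
  rw [← he']
  have h8 : ∀ t, e' (nu (m + 2) t) = κ • w b t := by
    intro t
    funext i
    rw [hw t i, h6 i]
    rfl
  simp only [h8, span_smul hκ]
  rfl

theorem w_affine (b : Fin (m + 2) → F) (α β t : F) :
    w (fun i => α * b i + β) (some (α * t + β)) = α ^ (m + 1) • w b (some t) := by
  funext i
  show ∏ j ∈ univ.erase i, (α * t + β - (α * b j + β)) = α ^ (m + 1) * ∏ j ∈ univ.erase i, (t - b j)
  have h1 : ∀ j ∈ univ.erase i, (α * t + β - (α * b j + β)) = α * (t - b j) := by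
    intro j _
    ring
  rw [Finset.prod_congr rfl h1, Finset.prod_mul_distrib, Finset.prod_const]
  simp

theorem CS_affine (b : Fin (m + 2) → F) {α : F} (hα : α ≠ 0) (β : F) :
    CS (fun i => α * b i + β) = CS b := by
  ext P
  constructor
  · rintro ⟨t, rfl⟩
    rcases t with _ | t
    · exact ⟨none, rfl⟩
    · refine ⟨some (α⁻¹ * (t - β)), ?_⟩
      have h1 : t = α * (α⁻¹ * (t - β)) + β := by field_simp; ring
      show _ = F ∙ w (fun i => α * b i + β) (some t)
      conv_rhs => rw [h1]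
      rw [w_affine, span_smul (pow_ne_zero _ hα)]
  · rintro ⟨t, rfl⟩
    rcases t with _ | t
    · exact ⟨none, rfl⟩
    · refine ⟨some (α * t + β), ?_⟩
      show F ∙ w (fun i => α * b i + β) (some (α * t + β)) = _
      rw [w_affine, span_smul (pow_ne_zero _ hα)]

theorem extra {b : Fin (m + 2) → F} {x : Fin (m + 2) → F} (hx : ∀ i, x i ≠ 0)
    (h1 : F ∙ x ∈ CS b) (h2 : F ∙ x ≠ F ∙ one1 F m) :
    ∃ t μ : F, μ ≠ 0 ∧ ∀ i, x i * (t - b i) = μ := by
  obtain ⟨t, ht⟩ := h1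
  rcases t with _ | t
  · exact absurd ht.symm h2
  · obtain ⟨ρ, hρ, h3⟩ := eq_of_span ht.symm
    have h4 : ∀ i, x i * (t - b i) = ρ * ∏ j, (t - b j) := by
      intro i
      have h5 := congrFun h3 i
      have h6 : x i = ρ * ∏ j ∈ univ.erase i, (t - b j) := h5
      rw [h6, mul_assoc, Finset.prod_erase_mul _ _ (mem_univ i)]
    refine ⟨t, ρ * ∏ j, (t - b j), ?_, h4⟩
    have h7 : ∀ j, t - b j ≠ 0 := by
      intro j hj
      obtain ⟨i, hi⟩ : ∃ i : Fin (m + 2), i ≠ j := by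
        by_cases hj0 : j = 0
        · exact ⟨1, by rw [hj0]; exact zero_ne_one_fin.symm⟩
        · exact ⟨0, fun h => hj0 h.symm⟩
      apply hx i
      have h5 := congrFun h3 i
      have h6 : x i = ρ * ∏ j ∈ univ.erase i, (t - b j) := h5
      rw [h6, Finset.prod_eq_zero (Finset.mem_erase.2 ⟨hi.symm, mem_univ j⟩) hj, mul_zero]
    exact mul_ne_zero hρ (Finset.prod_ne_zero_iff.2 fun j _ => h7 j)

theorem affine_of_extra {b b' : Fin (m + 2) → F} {x : Fin (m + 2) → F} (hx : ∀ i, x i ≠ 0)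
    (h1 : F ∙ x ∈ CS b) (h1' : F ∙ x ∈ CS b') (h2 : F ∙ x ≠ F ∙ one1 F m) :
    ∃ α β : F, α ≠ 0 ∧ b' = fun i => α * b i + β := by
  obtain ⟨t, μ, hμ, h3⟩ := extra hx h1 h2
  obtain ⟨t', μ', hμ', h3'⟩ := extra hx h1' h2
  refine ⟨μ' / μ, t' - μ' * t / μ, div_ne_zero hμ' hμ, ?_⟩
  funext i
  have h4 := h3 i
  have h4' := h3' i
  have h5 := hx i
  have h6 : b i = t - μ / x i := by
    field_simp
    linear_combination -h4
  have h6' : b' i = t' - μ' / x i := by
    field_simp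
    linear_combination -h4'
  rw [h6, h6']
  field_simp
  ring

theorem CS_unique {b b' : Fin (m + 2) → F} {x : Fin (m + 2) → F} (hx : ∀ i, x i ≠ 0)
    (h1 : F ∙ x ∈ CS b) (h1' : F ∙ x ∈ CS b') (h2 : F ∙ x ≠ F ∙ one1 F m) : CS b = CS b' := by
  obtain ⟨α, β, hα, rfl⟩ := affine_of_extra hx h1 h1' h2
  exact (CS_affine b hα β).symm

theorem w_ne_zero {b : Fin (m + 2) → F} {t : F} (ht : ∀ j, t ≠ b j) (i : Fin (m + 2)) :
    w b (some t) i ≠ 0 :=
  Finset.prod_ne_zero_iff.2 fun j _ => sub_ne_zero.2 (ht j)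

theorem w_ne_one {b : Fin (m + 2) → F} (hb : Function.Injective b) {t : F} (ht : ∀ j, t ≠ b j) :
    F ∙ w b (some t) ≠ F ∙ one1 F m := by
  intro h
  obtain ⟨c, hc, h1⟩ := eq_of_span h
  have h2 : ∀ i, c * (t - b i) = ∏ j, (t - b j) := by
    intro i
    have h5 : ∏ j ∈ univ.erase i, (t - b j) = c * 1 := congrFun h1 i
    rw [mul_one] at h5
    rw [← h5, Finset.prod_erase_mul _ _ (mem_univ i)]
  have h3 : c * (t - b 0) = c * (t - b 1) := by rw [h2, h2]
  have h4 := mul_left_cancel₀ hc h3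
  exact zero_ne_one_fin (hb (by linear_combination -h4))

theorem eq_of_normalized {b b' : Fin (m + 2) → F} (hb : Function.Injective b)
    (h0 : b 0 = 0) (h1 : b 1 = 1) (h0' : b' 0 = 0) (h1' : b' 1 = 1)
    (hex : ∃ t : F, ∀ j, t ≠ b j) (h : CS b = CS b') : b = b' := by
  obtain ⟨t, ht⟩ := hex
  have hm : F ∙ w b (some t) ∈ CS b := ⟨some t, rfl⟩
  obtain ⟨α, β, hα, h2⟩ := affine_of_extra (w_ne_zero ht) hm (h ▸ hm) (w_ne_one hb ht)
  have h3 := congrFun h2 0
  have h4 := congrFun h2 1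
  simp only [h0, h0', h1, h1', mul_zero, zero_add, mul_one] at h3 h4
  rw [← h3, add_zero] at h4
  rw [h2, ← h3, ← h4]
  simp

/-- the normalised parameters -/
def bb (g : Fin m ↪ {a : F // a ≠ 0 ∧ a ≠ 1}) : Fin (m + 2) → F :=
  Fin.cons 0 (Fin.cons 1 fun i => (g i : F))

theorem bb_injective (g : Fin m ↪ {a : F // a ≠ 0 ∧ a ≠ 1}) : Function.Injective (bb g) := by
  unfold bb
  rw [Fin.cons_injective_iff, Fin.cons_injective_iff]
  refine ⟨?_, ?_, ?_⟩
  · rintro ⟨i, hi⟩
    revert hi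
    refine Fin.cases ?_ (fun i => ?_) i
    · simp
    · simp only [Fin.cons_succ]
      exact (g i).2.1
  · rintro ⟨i, hi⟩
    exact (g i).2.2 hi
  · intro i j hij
    exact g.injective (Subtype.ext hij)

theorem exists_bb {b : Fin (m + 2) → F} (hb : Function.Injective b) (h0 : b 0 = 0)
    (h1 : b 1 = 1) : ∃ g : Fin m ↪ {a : F // a ≠ 0 ∧ a ≠ 1}, bb g = b := by
  refine ⟨⟨fun i => ⟨b i.succ.succ, ?_, ?_⟩, ?_⟩, ?_⟩
  · rw [← h0]
    exact fun h => absurd (hb h) (Fin.succ_ne_zero _)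
  · rw [← h1]
    intro h
    have := hb h
    rw [← Fin.succ_zero_eq_one] at this
    exact absurd (Fin.succ_injective _ this) (Fin.succ_ne_zero _)
  · intro i j hij
    have := hb (congrArg Subtype.val hij)
    exact Fin.succ_injective _ (Fin.succ_injective _ this)
  · funext i
    refine Fin.cases ?_ (fun i => ?_) i
    · exact h0.symm
    · refine Fin.cases ?_ (fun i => ?_) i
      · show (1 : F) = b (Fin.succ 0)
        rw [Fin.succ_zero_eq_one, h1]
      · rfl

theorem card_sub [Fintype F] [DecidableEq F] :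
    Fintype.card {a : F // a ≠ 0 ∧ a ≠ 1} = Fintype.card F - 2 := by
  rw [Fintype.card_of_subtype ((univ.erase (0 : F)).erase 1)]
  · rw [Finset.card_erase_of_mem (by simp), Finset.card_erase_of_mem (mem_univ _)]
    simp
    omega
  · intro x
    simp [and_comm]

/-- curves through the standard frame -/
def X1 (F : Type) [Field F] (m : ℕ) : Set (Set (Submodule F (Fin (m + 2) → F))) :=
  {C | IsNRC C ∧ (∀ i, F ∙ (Pi.single i 1 : Fin (m + 2) → F) ∈ C) ∧ F ∙ one1 F m ∈ C}

theorem exists_notin [Fintype F] (hq : m + 2 < Fintype.card F) (b : Fin (m + 2) → F) :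
    ∃ t : F, ∀ j, t ≠ b j := by
  classical
  by_contra hcon
  push Not at hcon
  have hs : Function.Surjective b := fun t => by
    obtain ⟨j, hj⟩ := hcon t
    exact ⟨j, hj.symm⟩
  have := Fintype.card_le_of_surjective b hs
  rw [Fintype.card_fin] at this
  omega

theorem exists_inj [Fintype F] (hq : m + 2 < Fintype.card F) :
    ∃ b0 : Fin (m + 2) → F, Function.Injective b0 := by
  obtain ⟨f⟩ := Function.Embedding.nonempty_of_card_le (α := Fin (m + 2)) (β := F)
    (by rw [Fintype.card_fin]; omega)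
  exact ⟨f, f.injective⟩

theorem X1_eq [Fintype F] (hq : m + 2 < Fintype.card F) :
    X1 F m = Set.range fun g : Fin m ↪ {a : F // a ≠ 0 ∧ a ≠ 1} => CS (bb g) := by
  ext C
  constructor
  · rintro ⟨h1, h2, h3⟩
    obtain ⟨b, hb, rfl⟩ := nrc_frame (exists_inj hq) h1 h2 h3
    have h4 : b 1 - b 0 ≠ 0 := sub_ne_zero.2 fun h => zero_ne_one_fin (hb h).symm
    have h5 : Function.Injective fun i => (b 1 - b 0)⁻¹ * b i + -((b 1 - b 0)⁻¹ * b 0) := by
      intro i j hij
      have := mul_left_cancel₀ (inv_ne_zero h4) (add_right_cancel hij)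
      exact hb this
    obtain ⟨g, hg⟩ := exists_bb h5 (by ring) (by
      have : (b 1 - b 0)⁻¹ * b 1 + -((b 1 - b 0)⁻¹ * b 0) = (b 1 - b 0)⁻¹ * (b 1 - b 0) := by ring
      show (b 1 - b 0)⁻¹ * b 1 + -((b 1 - b 0)⁻¹ * b 0) = 1
      rw [this, inv_mul_cancel₀ h4])
    refine ⟨g, ?_⟩
    show CS (bb g) = CS b
    rw [hg, CS_affine b (inv_ne_zero h4)]
  · rintro ⟨g, rfl⟩
    exact ⟨CS_isNRC (bb_injective g), CS_single (bb_injective g), CS_one _⟩

theorem X1_card [Fintype F] (hq : m + 2 < Fintype.card F) :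
    (X1 F m).ncard = (Fintype.card F - 2).descFactorial m := by
  classical
  rw [X1_eq hq, ← Set.image_univ, Set.ncard_image_of_injective, Set.ncard_univ,
    Nat.card_eq_fintype_card, Fintype.card_embedding_eq, card_sub, Fintype.card_fin]
  intro g g' h
  have h1 : bb g = bb g' :=
    eq_of_normalized (bb_injective g) rfl (by rfl) rfl (by rfl) (exists_notin hq _) h
  refine DFunLike.ext _ _ fun i => Subtype.ext ?_
  have := congrFun h1 i.succ.succ
  exact this

end Pool.Agent.Helper17.NRC
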