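import Pool.Agent.Helper17.NRC.C

set_option autoImplicit false

namespace Pool.Agent.Helper17.NRC

open Finset

variable {F : Type} [Field F] {m : ℕ}

/-- the image of a set of points under a linear equivalence -/
def img {k : ℕ} (φ : (Fin k → F) ≃ₗ[F] (Fin k → F)) (C : Set (Submodule F (Fin k → F))) :
    Set (Submodule F (Fin k → F)) :=
  (Submodule.map (φ : (Fin k → F) →ₗ[F] (Fin k → F))) '' C

theorem map_span_singleton {k : ℕ} (φ : (Fin k → F) ≃ₗ[F] (Fin k → F)) (x : Fin k → F) :
    Submodule.map (φ : (Fin k → F) →ₗ[F] (Fin k → F)) (F ∙ x) = F ∙ φ x := by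
  rw [Submodule.map_span, Set.image_singleton]
  rfl

theorem img_nrc {k : ℕ} (φ : (Fin k → F) ≃ₗ[F] (Fin k → F))
    {C : Set (Submodule F (Fin k → F))} (hC : IsNRC C) : IsNRC (img φ C) := by
  obtain ⟨e, rfl⟩ := hC
  refine ⟨e.trans φ, ?_⟩
  unfold img
  rw [← Set.range_comp]
  congr 1
  funext t
  show Submodule.map _ (F ∙ e (nu k t)) = _
  rw [map_span_singleton]
  rfl

theorem img_symm_img {k : ℕ} (φ : (Fin k → F) ≃ₗ[F] (Fin k → F))
    (C : Set (Submodule F (Fin k → F))) : img φ.symm (img φ C) = C := by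
  unfold img
  rw [← Set.image_comp]
  have : (Submodule.map (φ.symm : (Fin k → F) →ₗ[F] (Fin k → F))) ∘
      (Submodule.map (φ : (Fin k → F) →ₗ[F] (Fin k → F))) = id := by
    funext P
    show Submodule.map _ (Submodule.map _ P) = P
    rw [← Submodule.map_comp]
    simp
  rw [this, Set.image_id]

theorem img_img_symm {k : ℕ} (φ : (Fin k → F) ≃ₗ[F] (Fin k → F))
    (C : Set (Submodule F (Fin k → F))) : img φ (img φ.symm C) = C := by
  have := img_symm_img φ.symm C
  rwa [LinearEquiv.symm_symm] at this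

theorem img_injective {k : ℕ} (φ : (Fin k → F) ≃ₗ[F] (Fin k → F)) :
    Function.Injective (img φ) := fun C D h => by
  rw [← img_symm_img φ C, h, img_symm_img]

/-- the normal rational curves containing a set of points -/
def through {k : ℕ} (A : Set (Submodule F (Fin k → F))) : Set (Set (Submodule F (Fin k → F))) :=
  {C | IsNRC C ∧ A ⊆ C}

theorem through_img {k : ℕ} (φ : (Fin k → F) ≃ₗ[F] (Fin k → F))
    (A : Set (Submodule F (Fin k → F))) : through (img φ A) = img φ '' through A := by
  ext C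
  constructor
  · rintro ⟨h1, h2⟩
    refine ⟨img φ.symm C, ⟨img_nrc _ h1, ?_⟩, img_img_symm φ C⟩
    have := Set.image_mono (f := Submodule.map (φ.symm : (Fin k → F) →ₗ[F] (Fin k → F))) h2
    change img φ.symm (img φ A) ⊆ _ at this
    rwa [img_symm_img] at this
  · rintro ⟨D, ⟨h1, h2⟩, rfl⟩
    exact ⟨img_nrc _ h1, Set.image_mono h2⟩

theorem through_img_card {k : ℕ} (φ : (Fin k → F) ≃ₗ[F] (Fin k → F))
    (A : Set (Submodule F (Fin k → F))) : (through (img φ A)).ncard = (through A).ncard := by
  rw [through_img, Set.ncard_image_of_injective _ (img_injective φ)]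

/-- the coordinate points -/
def E0 (F : Type) [Field F] (m : ℕ) : Set (Submodule F (Fin (m + 2) → F)) :=
  Set.range fun i => F ∙ (Pi.single i 1 : Fin (m + 2) → F)

theorem X1_through : X1 F m = through (insert (F ∙ one1 F m) (E0 F m)) := by
  ext C
  constructor
  · rintro ⟨h1, h2, h3⟩
    refine ⟨h1, Set.insert_subset h3 ?_⟩
    rintro _ ⟨i, rfl⟩
    exact h2 i
  · rintro ⟨h1, h2⟩
    rw [Set.insert_subset_iff] at h2
    exact ⟨h1, fun i => h2.2 ⟨i, rfl⟩, h2.1⟩

/-- the diagonal map -/
noncomputable def diag (a : Fin (m + 2) → F) (ha : ∀ i, a i ≠ 0) :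
    (Fin (m + 2) → F) ≃ₗ[F] (Fin (m + 2) → F) :=
  LinearEquiv.piCongrRight fun i => LinearEquiv.smulOfNeZero F F (a i) (ha i)

theorem diag_apply (a : Fin (m + 2) → F) (ha : ∀ i, a i ≠ 0) (x : Fin (m + 2) → F) (i) :
    diag a ha x i = a i * x i := rfl

theorem diag_single (a : Fin (m + 2) → F) (ha : ∀ i, a i ≠ 0) (i : Fin (m + 2)) :
    diag a ha (Pi.single i 1) = a i • Pi.single i 1 := by
  funext j
  rw [diag_apply]
  by_cases h : j = i
  · subst h; simp
  · simp [Pi.single_eq_of_ne h]

theorem diag_one (a : Fin (m + 2) → F) (ha : ∀ i, a i ≠ 0) : diag a ha (one1 F m) = a := by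
  funext j
  rw [diag_apply]
  simp [one1]

theorem img_diag_E0 (a : Fin (m + 2) → F) (ha : ∀ i, a i ≠ 0) : img (diag a ha) (E0 F m) = E0 F m := by
  unfold img E0
  rw [← Set.range_comp]
  congr 1
  funext i
  show Submodule.map _ (F ∙ (Pi.single i 1 : Fin (m + 2) → F)) = _
  rw [map_span_singleton, diag_single, span_smul (ha i)]

theorem through_point_card [Fintype F] (hq : m + 2 < Fintype.card F) (a : Fin (m + 2) → F)
    (ha : ∀ i, a i ≠ 0) : (through (insert (F ∙ a) (E0 F m))).ncard =
      (Fintype.card F - 2).descFactorial m := by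
  rw [← X1_card hq, X1_through, ← through_img_card (diag a ha) (insert (F ∙ one1 F m) (E0 F m))]
  congr 2
  unfold img
  rw [Set.image_insert_eq, map_span_singleton, diag_one]
  congr 1
  exact (img_diag_E0 a ha).symm

/-- the points with nonzero coordinates -/
def Y (F : Type) [Field F] (m : ℕ) : Set (Submodule F (Fin (m + 2) → F)) :=
  {P | ∃ x : Fin (m + 2) → F, (∀ i, x i ≠ 0) ∧ P = F ∙ x}

theorem Y_card [Fintype F] : (Y F m).ncard = (Fintype.card F - 1) ^ (m + 1) := by
  classical
  have h1 : Y F m = Set.range fun u : Fin (m + 1) → Fˣ =>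
      F ∙ (Fin.cons 1 (fun i => (u i : F)) : Fin (m + 2) → F) := by
    ext P
    constructor
    · rintro ⟨x, hx, rfl⟩
      refine ⟨fun i => Units.mk0 ((x 0)⁻¹ * x i.succ)
        (mul_ne_zero (inv_ne_zero (hx 0)) (hx _)), ?_⟩
      show F ∙ _ = F ∙ x
      have h2 : (Fin.cons 1 (fun i => ((Units.mk0 ((x 0)⁻¹ * x (Fin.succ i))
        (mul_ne_zero (inv_ne_zero (hx 0)) (hx _)) : Fˣ) : F)) : Fin (m + 2) → F) =
          (x 0)⁻¹ • x := by
        funext i
        refine Fin.cases ?_ (fun i => ?_) i
        · simp [inv_mul_cancel₀ (hx 0)]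
        · simp
      rw [h2, span_smul (inv_ne_zero (hx 0))]
    · rintro ⟨u, rfl⟩
      refine ⟨_, ?_, rfl⟩
      intro i
      refine Fin.cases ?_ (fun i => ?_) i
      · simp
      · simp
  rw [h1, ← Set.image_univ, Set.ncard_image_of_injective, Set.ncard_univ,
    Nat.card_eq_fintype_card, Fintype.card_fun, Fintype.card_units, Fintype.card_fin]
  intro u u' h
  obtain ⟨c, hc, h2⟩ := eq_of_span h
  have h3 := congrFun h2 0
  simp only [Fin.cons_zero, Pi.smul_apply, smul_eq_mul, mul_one] at h3
  funext i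
  have h4 := congrFun h2 i.succ
  simp only [Fin.cons_succ, Pi.smul_apply, smul_eq_mul, ← h3, one_mul] at h4
  exact Units.ext h4

theorem curve_Y_card [Fintype F] (hq : m + 2 < Fintype.card F)
    {C : Set (Submodule F (Fin (m + 2) → F))} (hC : C ∈ through (E0 F m)) :
    (C ∩ Y F m).ncard = Fintype.card F + 1 - (m + 2) := by
  classical
  obtain ⟨⟨e, rfl⟩, h2⟩ := hC
  obtain ⟨b0, hb0⟩ := exists_inj hq
  -- a parameter which does not belong to a coordinate point
  have h3 : ∀ i, ∃ t : Option F, F ∙ e (nu (m + 2) t) = F ∙ (Pi.single i 1 : Fin (m + 2) → F) :=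
    fun i => h2 ⟨i, rfl⟩
  choose t0 ht0 using h3
  obtain ⟨c, hc⟩ : ∃ c : Option F, ∀ i, t0 i ≠ c := by
    by_contra hcon
    push Not at hcon
    have := Fintype.card_le_of_surjective t0 hcon
    rw [Fintype.card_option, Fintype.card_fin] at this
    omega
  have he_inj : ∀ s t : Option F, F ∙ e (nu (m + 2) s) = F ∙ e (nu (m + 2) t) → s = t := by
    intro s t hst
    obtain ⟨κ, hκ, h⟩ := eq_of_span hst
    rw [← map_smul] at h
    have h5 := e.injective h
    rcases s with _ | s <;> rcases t with _ | t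
    · rfl
    · exfalso
      have := congrFun h5 (Fin.last (m + 1))
      simp [nu] at this
      exact hκ this.symm
    · exfalso
      have := congrFun h5 (Fin.last (m + 1))
      simp [nu] at this
    · have h6 := congrFun h5 (Fin.last (m + 1))
      have h7 : κ = 1 := by
        simp [nu] at h6
        exact h6.symm
      have h8 := congrFun h5 ⟨m, by omega⟩
      rw [h7] at h8
      simp [nu] at h8
      rw [h8]
  obtain ⟨e', he', he0⟩ := reparam_nrc b0 hb0 e c
  have h4 : ∀ i, ∃ t : F, F ∙ e' (nu (m + 2) (some t)) = F ∙ (Pi.single i 1 : Fin (m + 2) → F) := by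
    intro i
    have : F ∙ (Pi.single i 1 : Fin (m + 2) → F) ∈
        Set.range fun t : Option F => F ∙ e' (nu (m + 2) t) := by
      rw [he']
      exact h2 ⟨i, rfl⟩
    obtain ⟨t, ht⟩ := this
    rcases t with _ | t
    · exfalso
      apply hc i
      apply he_inj
      rw [ht0 i, ← ht]
      show F ∙ e' (nu (m + 2) none) = _
      rw [he0]
    · exact ⟨t, ht⟩
  choose b hb using h4
  obtain ⟨hinj, a, ha, hw⟩ := normal_form e' b hb
  rw [← he']
  have h5 : ((Set.range fun t : Option F => F ∙ e' (nu (m + 2) t)) ∩ Y F m) =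
      (fun t : Option F => F ∙ e' (nu (m + 2) t)) '' {t | ∀ i, t ≠ some (b i)} := by
    ext P
    constructor
    · rintro ⟨⟨t, rfl⟩, x, hx, hPx⟩
      refine ⟨t, ?_, rfl⟩
      rintro i rfl
      obtain ⟨j, hj⟩ : ∃ j : Fin (m + 2), j ≠ i := by
        by_cases hi : i = 0
        · exact ⟨1, by rw [hi]; exact zero_ne_one_fin.symm⟩
        · exact ⟨0, fun h => hi h.symm⟩
      obtain ⟨κ, hκ, h⟩ := eq_of_span (hPx.symm.trans (hb i))
      apply hx j
      rw [h]
      simp [Pi.single_eq_of_ne hj]
    · rintro ⟨t, ht, rfl⟩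
      refine ⟨⟨t, rfl⟩, _, ?_, rfl⟩
      intro i
      rw [hw t i]
      refine mul_ne_zero (ha i) ?_
      rcases t with _ | t
      · exact one_ne_zero
      · exact w_ne_zero (fun j h => ht j (by rw [h])) i
  have hinj' : Function.Injective fun t : Option F => F ∙ e' (nu (m + 2) t) := by
    intro s t hst
    obtain ⟨κ, hκ, h⟩ := eq_of_span hst
    rw [← map_smul] at h
    have h5 := e'.injective h
    rcases s with _ | s <;> rcases t with _ | t
    · rfl
    · exfalso
      have := congrFun h5 (Fin.last (m + 1))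
      simp [nu] at this
      exact hκ this.symm
    · exfalso
      have := congrFun h5 (Fin.last (m + 1))
      simp [nu] at this
    · have h6 := congrFun h5 (Fin.last (m + 1))
      have h7 : κ = 1 := by
        simp [nu] at h6
        exact h6.symm
      have h8 := congrFun h5 ⟨m, by omega⟩
      rw [h7] at h8
      simp [nu] at h8
      rw [h8]
  rw [h5, Set.ncard_image_of_injective _ hinj']
  have h6 : {t : Option F | ∀ i, t ≠ some (b i)} =
      (((univ : Finset (Option F)) \ (univ.image fun i => some (b i)) : Finset (Option F)) :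
        Set (Option F)) := by
    ext t
    simp [eq_comm]
  rw [h6, Set.ncard_coe_finset, Finset.card_sdiff_of_subset (Finset.subset_univ _),
    Finset.card_image_of_injective _ (fun i j h => hinj (Option.some_injective _ h))]
  simp

end Pool.Agent.Helper17.NRC
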