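import Pool.Agent.Helper17.NRC.D

set_option autoImplicit false

namespace Pool.Agent.Helper17.NRC

open Finset

variable {F : Type} [Field F] {m : ℕ}

/-- A set of points of `PG(k-1,q)` of which at most `k - 1` lie in any hyperplane. -/
def IsArc {F : Type} [Field F] {k : ℕ} (A : Set (Submodule F (Fin k → F))) : Prop :=
  (∀ P ∈ A, ∃ x : Fin k → F, x ≠ 0 ∧ P = F ∙ x) ∧
    ∀ f : (Fin k → F) →ₗ[F] F, f ≠ 0 → {P | P ∈ A ∧ P ≤ LinearMap.ker f}.ncard ≤ k - 1

instance [Finite F] {k : ℕ} : Finite (Submodule F (Fin k → F)) :=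
  Finite.of_injective (fun P => (P : Set (Fin k → F))) SetLike.coe_injective

theorem X0_card [Fintype F] (hq : m + 3 < Fintype.card F) : (through (E0 F (m + 1))).ncard =
    (Fintype.card F - 1) ^ (m + 2) * (Fintype.card F - 2).descFactorial m := by
  classical
  have hS : (through (E0 F (m + 1))).Finite := Set.toFinite _
  have hT : (Y F (m + 1)).Finite := Set.toFinite _
  have key := Finset.sum_card_bipartiteAbove_eq_sum_card_bipartiteBelow
    (s := hS.toFinset) (t := hT.toFinset)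
    (fun (C : Set (Submodule F (Fin (m + 1 + 2) → F))) P => P ∈ C)
  have h1 : ∀ C ∈ hS.toFinset, (Finset.bipartiteAbove
      (fun (C : Set (Submodule F (Fin (m + 1 + 2) → F))) P => P ∈ C) hT.toFinset C).card =
      Fintype.card F - 2 - m := by
    intro C hC
    have h2 := curve_Y_card (by omega) (hS.mem_toFinset.1 hC)
    have h3 : (Finset.bipartiteAbove
      (fun (C : Set (Submodule F (Fin (m + 1 + 2) → F))) P => P ∈ C) hT.toFinset C).card =
        (C ∩ Y F (m + 1)).ncard := by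
      rw [← Set.ncard_coe_finset]
      congr 1
      ext P
      simp [Finset.mem_bipartiteAbove, and_comm]
    rw [h3, h2]
    omega
  have h2 : ∀ P ∈ hT.toFinset, (Finset.bipartiteBelow
      (fun (C : Set (Submodule F (Fin (m + 1 + 2) → F))) P => P ∈ C) hS.toFinset P).card =
      (Fintype.card F - 2).descFactorial (m + 1) := by
    intro P hP
    obtain ⟨x, hx, rfl⟩ := hT.mem_toFinset.1 hP
    rw [← through_point_card (by omega) x hx, ← Set.ncard_coe_finset]
    congr 1
    ext C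
    simp only [Finset.mem_coe, Finset.mem_bipartiteBelow, Set.Finite.mem_toFinset]
    unfold through
    simp only [Set.mem_ofPred_eq, Set.insert_subset_iff]
    tauto
  rw [Finset.sum_congr rfl h1, Finset.sum_congr rfl h2, Finset.sum_const, Finset.sum_const,
    ← Set.ncard_eq_toFinset_card _ hS, ← Set.ncard_eq_toFinset_card _ hT, Y_card,
    smul_eq_mul, smul_eq_mul, Nat.descFactorial_succ] at key
  have hpos : 0 < Fintype.card F - 2 - m := by omega
  apply Nat.eq_of_mul_eq_mul_right hpos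
  rw [key]
  ring

theorem arc_subset {k : ℕ} [Finite F] {A B : Set (Submodule F (Fin k → F))} (hA : IsArc A)
    (hBA : B ⊆ A) : IsArc B :=
  ⟨fun P hP => hA.1 P (hBA hP), fun f hf => by
    have h : {P | P ∈ B ∧ P ≤ LinearMap.ker f} ⊆ {P | P ∈ A ∧ P ≤ LinearMap.ker f} :=
      fun P hP => ⟨hBA hP.1, hP.2⟩
    exact (Set.ncard_le_ncard h (Set.toFinite _)).trans (hA.2 f hf)⟩

/-- `k` different points of an arc are not in a hyperplane -/
theorem arc_not {k : ℕ} [Finite F] {A : Set (Submodule F (Fin (k + 1) → F))} (hA : IsArc A)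
    (v : Fin (k + 1) → (Fin (k + 1) → F)) (hv : ∀ i, F ∙ v i ∈ A)
    (hinj : Function.Injective fun i => F ∙ v i) (f : (Fin (k + 1) → F) →ₗ[F] F) (hf : f ≠ 0)
    (h0 : ∀ i, f (v i) = 0) : False := by
  have h1 := hA.2 f hf
  have h2 : (Set.range fun i => F ∙ v i) ⊆ {P | P ∈ A ∧ P ≤ LinearMap.ker f} := by
    rintro _ ⟨i, rfl⟩
    refine ⟨hv i, ?_⟩
    rw [Submodule.span_singleton_le_iff_mem]
    exact h0 i
  have h3 := Set.ncard_le_ncard h2 (Set.toFinite _)
  have h4 : (Set.range fun i => F ∙ v i).ncard = k + 1 := by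
    rw [← Set.image_univ, Set.ncard_image_of_injective _ hinj, Set.ncard_univ]
    simp
  omega

theorem arc_li {k : ℕ} [Finite F] {A : Set (Submodule F (Fin (k + 1) → F))} (hA : IsArc A)
    (v : Fin (k + 1) → (Fin (k + 1) → F)) (hv : ∀ i, F ∙ v i ∈ A)
    (hinj : Function.Injective fun i => F ∙ v i) :
    ∃ φ : (Fin (k + 1) → F) ≃ₗ[F] (Fin (k + 1) → F), ∀ i, φ (Pi.single i 1) = v i := by
  have h1 : Submodule.span F (Set.range v) = ⊤ := by
    by_contra hne
    obtain ⟨f, hf, hle⟩ := Submodule.exists_le_ker_of_lt_top _ (lt_top_iff_ne_top.2 hne)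
    exact arc_not hA v hv hinj f hf fun i => hle (Submodule.subset_span ⟨i, rfl⟩)
  have h2 : LinearIndependent F v :=
    linearIndependent_of_top_le_span_of_card_eq_finrank h1.ge (by simp)
  let b := Module.Basis.mk h2 h1.ge
  refine ⟨b.equivFun.symm, fun i => ?_⟩
  rw [Module.Basis.equivFun_symm_apply]
  simp only [b, Module.Basis.mk_apply]
  rw [Finset.sum_eq_single i]
  · simp
  · intro j _ hj
    simp [Pi.single_eq_of_ne hj]
  · simp

/-- enumeration of the points of an arc -/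
theorem arc_enum {k n : ℕ} [Finite F] {A : Set (Submodule F (Fin k → F))} (hA : IsArc A)
    (hn : A.ncard = n) : ∃ v : Fin n → (Fin k → F), (∀ i, F ∙ v i ∈ A) ∧
      Function.Injective (fun i => F ∙ v i) ∧ A = Set.range fun i => F ∙ v i := by
  have h1 : Nat.card A = n := hn
  let e := Finite.equivFinOfCardEq h1
  have h2 : ∀ i : Fin n, ∃ x : Fin k → F, ((e.symm i : A) : Submodule F (Fin k → F)) = F ∙ x := by
    intro i
    obtain ⟨x, -, hx⟩ := hA.1 _ (e.symm i).2
    exact ⟨x, hx⟩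
  choose v hv using h2
  refine ⟨v, fun i => ?_, fun i j hij => ?_, ?_⟩
  · rw [← hv i]
    exact (e.symm i).2
  · have h3 : F ∙ v i = F ∙ v j := hij
    rw [← hv i, ← hv j] at h3
    exact e.symm.injective (Subtype.ext h3)
  · ext P
    constructor
    · intro hP
      refine ⟨e ⟨P, hP⟩, ?_⟩
      show F ∙ v (e ⟨P, hP⟩) = P
      rw [← hv, Equiv.symm_apply_apply]
    · rintro ⟨i, rfl⟩
      show F ∙ v i ∈ A
      rw [← hv i]
      exact (e.symm i).2

theorem arc_k [Finite F] {A : Set (Submodule F (Fin (m + 2) → F))} (hA : IsArc A)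
    (hn : A.ncard = m + 2) :
    ∃ φ : (Fin (m + 2) → F) ≃ₗ[F] (Fin (m + 2) → F), A = img φ (E0 F m) := by
  obtain ⟨v, h1, h2, h3⟩ := arc_enum hA hn
  obtain ⟨φ, hφ⟩ := arc_li hA v h1 h2
  refine ⟨φ, ?_⟩
  rw [h3]
  unfold img E0
  rw [← Set.range_comp]
  congr 1
  funext i
  show F ∙ v i = Submodule.map _ (F ∙ (Pi.single i 1 : Fin (m + 2) → F))
  rw [map_span_singleton, hφ]

theorem single_inj : Function.Injective fun i : Fin (m + 2) =>
    F ∙ (Pi.single i 1 : Fin (m + 2) → F) := by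
  intro i j h
  by_contra hne
  obtain ⟨c, hc, h2⟩ := eq_of_span h
  have h3 := congrFun h2 i
  simp [Pi.single_eq_of_ne hne] at h3

theorem span_inj {k : ℕ} (φ : (Fin k → F) ≃ₗ[F] (Fin k → F)) {x y : Fin k → F}
    (h : F ∙ φ x = F ∙ φ y) : F ∙ x = F ∙ y := by
  obtain ⟨c, hc, h1⟩ := eq_of_span h
  rw [← map_smul] at h1
  rw [φ.injective h1, span_smul hc]

/-- a point of an arc containing the image of the coordinate points has nonzero coordinates -/
theorem arc_coord [Finite F] {A : Set (Submodule F (Fin (m + 2) → F))} (hA : IsArc A)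
    (φ : (Fin (m + 2) → F) ≃ₗ[F] (Fin (m + 2) → F)) (h1 : img φ (E0 F m) ⊆ A)
    (x : Fin (m + 2) → F) (hx : F ∙ φ x ∈ A)
    (hx' : ∀ i, F ∙ x ≠ F ∙ (Pi.single i 1 : Fin (m + 2) → F)) (i : Fin (m + 2)) : x i ≠ 0 := by
  intro h0
  have hs : ∀ j, F ∙ φ (Pi.single j 1) ∈ A := fun j =>
    h1 ⟨F ∙ (Pi.single j 1 : Fin (m + 2) → F), ⟨j, rfl⟩, map_span_singleton φ _⟩
  refine arc_not hA (Function.update (fun j => φ (Pi.single j 1)) i (φ x)) ?_ ?_
    ((LinearMap.proj i).comp (φ.symm : (Fin (m + 2) → F) →ₗ[F] (Fin (m + 2) → F))) ?_ ?_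
  · intro j
    by_cases hj : j = i
    · subst hj; simpa using hx
    · simpa [Function.update_of_ne hj] using hs j
  · intro j j' hjj
    by_cases hj : j = i <;> by_cases hj' : j' = i
    · rw [hj, hj']
    · exfalso
      subst hj
      simp only [Function.update_self, Function.update_of_ne hj'] at hjj
      exact hx' j' (span_inj φ hjj)
    · exfalso
      subst hj'
      simp only [Function.update_self, Function.update_of_ne hj] at hjj
      exact hx' j (span_inj φ hjj.symm)
    · simp only [Function.update_of_ne hj, Function.update_of_ne hj'] at hjj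
      exact single_inj (span_inj φ hjj)
  · intro h
    have := LinearMap.congr_fun h (φ (Pi.single i 1))
    simp at this
  · intro j
    by_cases hj : j = i
    · subst hj; simpa using h0
    · simp [Function.update_of_ne hj, Pi.single_eq_of_ne (Ne.symm hj)]

theorem arc_k1 [Finite F] {A : Set (Submodule F (Fin (m + 2) → F))} (hA : IsArc A)
    (hn : A.ncard = m + 3) :
    ∃ (φ : (Fin (m + 2) → F) ≃ₗ[F] (Fin (m + 2) → F)) (a : Fin (m + 2) → F), (∀ i, a i ≠ 0) ∧
      A = img φ (insert (F ∙ a) (E0 F m)) := by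
  obtain ⟨P, hP⟩ : A.Nonempty := Set.nonempty_of_ncard_ne_zero (by omega)
  have h1 : (A \ {P}).ncard = m + 2 := by
    rw [Set.ncard_sdiff_singleton_of_mem hP, hn]
    rfl
  obtain ⟨φ, hφ⟩ := arc_k (arc_subset hA Set.sdiff_subset) h1
  obtain ⟨x, hx, rfl⟩ := hA.1 P hP
  refine ⟨φ, φ.symm x, ?_, ?_⟩
  · refine arc_coord hA φ (hφ ▸ Set.sdiff_subset) _ (by simpa using hP) ?_
    intro i h
    have h2 : F ∙ x ∈ img φ (E0 F m) :=
      ⟨F ∙ (Pi.single i 1 : Fin (m + 2) → F), ⟨i, rfl⟩, by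
        rw [← h, map_span_singleton]; simp⟩
    rw [← hφ] at h2
    exact h2.2 rfl
  · unfold img
    rw [Set.image_insert_eq, map_span_singleton, LinearEquiv.apply_symm_apply]
    show A = insert (F ∙ x) (img φ (E0 F m))
    rw [← hφ, Set.insert_sdiff_singleton, Set.insert_eq_of_mem hP]

/-- normalised form of `k + 1` points of an arc -/
theorem arc_k1' [Finite F] {A : Set (Submodule F (Fin (m + 2) → F))} (hA : IsArc A)
    (hn : A.ncard = m + 3) :
    ∃ (φ : (Fin (m + 2) → F) ≃ₗ[F] (Fin (m + 2) → F)),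
      A = img φ (insert (F ∙ one1 F m) (E0 F m)) := by
  obtain ⟨φ, a, ha, h⟩ := arc_k1 hA hn
  refine ⟨(diag a ha).trans φ, ?_⟩
  rw [h]
  have h1 : img ((diag a ha).trans φ) (insert (F ∙ one1 F m) (E0 F m)) =
      img φ (img (diag a ha) (insert (F ∙ one1 F m) (E0 F m))) := by
    unfold img
    rw [← Set.image_comp]
    congr 1
    funext P
    show _ = Submodule.map _ (Submodule.map _ P)
    rw [← Submodule.map_comp]
    rfl
  rw [h1]
  congr 1
  unfold img
  rw [Set.image_insert_eq, map_span_singleton, diag_one]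
  congr 1
  exact (img_diag_E0 a ha).symm

theorem unique_through [Fintype F] (hq : m + 2 < Fintype.card F)
    {A : Set (Submodule F (Fin (m + 2) → F))} (hA : IsArc A) (hn : m + 4 ≤ A.ncard)
    {C D : Set (Submodule F (Fin (m + 2) → F))} (hC : C ∈ through A) (hD : D ∈ through A) :
    C = D := by
  obtain ⟨B, hB, hBn⟩ := Set.exists_subset_card_eq (s := A) (n := m + 3) (by omega)
  obtain ⟨P, hP, hPB⟩ : ∃ P ∈ A, P ∉ B := by
    by_contra hcon
    push Not at hcon
    have := Set.ncard_le_ncard (s := A) (t := B) hcon (Set.toFinite _)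
    omega
  obtain ⟨φ, hφ⟩ := arc_k1' (arc_subset hA hB) hBn
  obtain ⟨y, hy, rfl⟩ := hA.1 P hP
  have hx1 : F ∙ φ (φ.symm y) ∉ B := by simpa using hPB
  have hxA : F ∙ φ (φ.symm y) ∈ A := by simpa using hP
  have hE : img φ (E0 F m) ⊆ B := by
    rw [hφ]
    exact Set.image_mono (Set.subset_insert _ _)
  have hx0 : ∀ i, (φ.symm y) i ≠ 0 := by
    refine arc_coord hA φ (hE.trans hB) _ hxA ?_
    intro i h
    apply hx1
    apply hE
    exact ⟨F ∙ (Pi.single i 1 : Fin (m + 2) → F), ⟨i, rfl⟩, by rw [← h, map_span_singleton]⟩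
  have hx2 : F ∙ (φ.symm y) ≠ F ∙ one1 F m := by
    intro h
    apply hx1
    rw [hφ]
    exact ⟨F ∙ one1 F m, Set.mem_insert _ _, by rw [← h, map_span_singleton]⟩
  have key : ∀ C ∈ through A, ∃ b, img φ.symm C = CS b ∧ F ∙ (φ.symm y) ∈ CS b := by
    intro C hC
    have h1 : img φ.symm C ∈ X1 F m := by
      rw [X1_through]
      refine ⟨img_nrc _ hC.1, ?_⟩
      have := Set.image_mono (f := Submodule.map (φ.symm : (Fin (m + 2) → F) →ₗ[F] (Fin (m + 2) → F)))
        (hB.trans hC.2)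
      change img φ.symm B ⊆ _ at this
      rw [hφ, img_symm_img] at this
      exact this
    obtain ⟨b, hb, h2⟩ := nrc_frame (exists_inj hq) h1.1 h1.2.1 h1.2.2
    refine ⟨b, h2, ?_⟩
    rw [← h2]
    exact ⟨F ∙ y, hC.2 hP, map_span_singleton φ.symm y⟩
  obtain ⟨b, h1, h2⟩ := key C hC
  obtain ⟨b', h1', h2'⟩ := key D hD
  have h3 := CS_unique hx0 h2 h2' hx2
  exact img_injective φ.symm (by rw [h1, h1', h3])

end Pool.Agent.Helper17.NRC
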