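import Pool.Agent.Helper17.NRC.E

set_option autoImplicit false

namespace Pool.Agent.Helper17.NRC

open Finset

variable {F : Type} [Field F] {m : ℕ}

theorem exists_through_k2 [Fintype F]
    {A : Set (Submodule F (Fin (m + 2) → F))} (hA : IsArc A) (hn : A.ncard = m + 4) :
    (through A).Nonempty := by
  obtain ⟨P, hP⟩ : A.Nonempty := Set.nonempty_of_ncard_ne_zero (by omega)
  have hB1 : (A \ {P}).ncard = m + 3 := by
    rw [Set.ncard_sdiff_singleton_of_mem hP, hn]
    rfl
  have hB : A \ {P} ⊆ A := Set.sdiff_subset
  obtain ⟨φ, hφ⟩ := arc_k1' (arc_subset hA hB) hB1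
  obtain ⟨y, hy, rfl⟩ := hA.1 P hP
  have hx1 : F ∙ φ (φ.symm y) ∉ A \ {F ∙ y} := by simp
  have hxA : F ∙ φ (φ.symm y) ∈ A := by simpa using hP
  have hE : img φ (E0 F m) ⊆ A \ {F ∙ y} := by
    rw [hφ]
    exact Set.image_mono (Set.subset_insert _ _)
  have hne : ∀ i, F ∙ φ.symm y ≠ F ∙ (Pi.single i 1 : Fin (m + 2) → F) := by
    intro i h
    apply hx1
    apply hE
    exact ⟨F ∙ (Pi.single i 1 : Fin (m + 2) → F), ⟨i, rfl⟩, by rw [← h, map_span_singleton]⟩
  have hx0 : ∀ i, (φ.symm y) i ≠ 0 := arc_coord hA φ (hE.trans hB) _ hxA hne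
  have h1A : F ∙ φ (one1 F m) ∈ A \ {F ∙ y} := by
    rw [hφ]
    exact ⟨F ∙ one1 F m, Set.mem_insert _ _, map_span_singleton _ _⟩
  have hx2 : F ∙ (φ.symm y) ≠ F ∙ one1 F m := by
    intro h
    apply hx1
    rw [hφ]
    exact ⟨F ∙ one1 F m, Set.mem_insert _ _, by rw [← h, map_span_singleton]⟩
  have hs : ∀ j, F ∙ φ (Pi.single j 1) ∈ A := fun j =>
    hB (hE ⟨F ∙ (Pi.single j 1 : Fin (m + 2) → F), ⟨j, rfl⟩, map_span_singleton φ _⟩)
  have hdist : Function.Injective (φ.symm y) := by
    intro i j hij
    by_contra hne'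
    refine arc_not hA (Function.update (Function.update (fun l => φ (Pi.single l 1)) i
      (φ (one1 F m))) j (φ (φ.symm y))) ?_ ?_
      (((LinearMap.proj i : (Fin (m + 2) → F) →ₗ[F] F) -
        (LinearMap.proj j : (Fin (m + 2) → F) →ₗ[F] F)).comp
        (φ.symm : (Fin (m + 2) → F) →ₗ[F] (Fin (m + 2) → F))) ?_ ?_
    · intro l
      by_cases hl : l = j
      · subst hl
        rw [Function.update_self]
        exact hxA
      · rw [Function.update_of_ne hl]
        by_cases hl' : l = i
        · subst hl'
          rw [Function.update_self]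
          exact hB h1A
        · rw [Function.update_of_ne hl']
          exact hs l
    · have hval : ∀ l, l ≠ j → l ≠ i → Function.update (Function.update
          (fun l => φ (Pi.single l 1)) i (φ (one1 F m))) j (φ (φ.symm y)) l =
            φ (Pi.single l 1) := by
        intro l h1 h2
        rw [Function.update_of_ne h1, Function.update_of_ne h2]
      have hvj : Function.update (Function.update
          (fun l => φ (Pi.single l 1)) i (φ (one1 F m))) j (φ (φ.symm y)) j =
            φ (φ.symm y) := Function.update_self _ _ _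
      have hvi : Function.update (Function.update
          (fun l => φ (Pi.single l 1)) i (φ (one1 F m))) j (φ (φ.symm y)) i =
            φ (one1 F m) := by rw [Function.update_of_ne hne', Function.update_self]
      intro l l' hll
      simp only at hll
      by_cases h1 : l = j
      · by_cases h1' : l' = j
        · rw [h1, h1']
        · exfalso
          by_cases h2' : l' = i
          · rw [h1, h2', hvj, hvi] at hll
            exact hx2 (span_inj φ hll)
          · rw [h1, hvj, hval l' h1' h2'] at hll
            exact hne l' (span_inj φ hll)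
      · by_cases h2 : l = i
        · by_cases h1' : l' = j
          · exfalso
            rw [h2, h1', hvj, hvi] at hll
            exact hx2 (span_inj φ hll.symm)
          · by_cases h2' : l' = i
            · rw [h2, h2']
            · exfalso
              rw [h2, hvi, hval l' h1' h2'] at hll
              exact one_ne_single l' (span_inj φ hll)
        · by_cases h1' : l' = j
          · exfalso
            rw [h1', hvj, hval l h1 h2] at hll
            exact hne l (span_inj φ hll.symm)
          · by_cases h2' : l' = i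
            · exfalso
              rw [h2', hvi, hval l h1 h2] at hll
              exact one_ne_single l (span_inj φ hll.symm)
            · rw [hval l h1 h2, hval l' h1' h2'] at hll
              exact single_inj (span_inj φ hll)
    · intro h
      have := LinearMap.congr_fun h (φ (Pi.single i 1))
      simp [Pi.single_eq_of_ne (Ne.symm hne')] at this
    · intro l
      by_cases hl : l = j
      · subst hl
        rw [Function.update_self]
        simp only [LinearMap.comp_apply, LinearMap.sub_apply, LinearMap.proj_apply,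
          LinearEquiv.coe_coe, LinearEquiv.symm_apply_apply]
        rw [hij, sub_self]
      · rw [Function.update_of_ne hl]
        by_cases hl' : l = i
        · subst hl'
          rw [Function.update_self]
          simp [one1]
        · rw [Function.update_of_ne hl']
          simp [Pi.single_eq_of_ne (Ne.symm hl), Pi.single_eq_of_ne (Ne.symm hl')]
  have hb : Function.Injective fun i => ((φ.symm y) i)⁻¹ := fun i j h =>
    hdist (inv_injective h)
  refine ⟨img φ (CS fun i => ((φ.symm y) i)⁻¹), img_nrc _ (CS_isNRC hb), ?_⟩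
  intro P' hP'
  by_cases h : P' = F ∙ y
  · subst h
    refine ⟨F ∙ φ.symm y, ⟨some 0, ?_⟩, ?_⟩
    · have hκ : -(∏ j, (0 - ((φ.symm y) j)⁻¹)) ≠ 0 := by
        rw [neg_ne_zero, Finset.prod_ne_zero_iff]
        intro j _
        rw [zero_sub, neg_ne_zero]
        exact inv_ne_zero (hx0 j)
      have h3 : w (fun i => ((φ.symm y) i)⁻¹) (some 0) =
          (-(∏ j, (0 - ((φ.symm y) j)⁻¹))) • φ.symm y := by
        funext i
        show ∏ j ∈ univ.erase i, (0 - ((φ.symm y) j)⁻¹) = _
        rw [Pi.smul_apply, smul_eq_mul, ← Finset.prod_erase_mul _ _ (mem_univ i)]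
        have := hx0 i
        field_simp
        ring
      show F ∙ w (fun i => ((φ.symm y) i)⁻¹) (some 0) = _
      rw [h3, span_smul hκ]
    · rw [map_span_singleton]
      simp
  · have h4 : P' ∈ A \ {F ∙ y} := ⟨hP', h⟩
    rw [hφ] at h4
    refine Set.image_mono ?_ h4
    refine Set.insert_subset (CS_one _) ?_
    rintro _ ⟨i, rfl⟩
    exact CS_single hb i

/-- if all `n`-arcs are contained in curves then so are all larger arcs (`n ≥ k + 3`) -/
theorem larger [Fintype F] (hq : m + 2 < Fintype.card F) {n : ℕ} (hn : m + 5 ≤ n)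
    (h : ∀ A : Set (Submodule F (Fin (m + 2) → F)), IsArc A → A.ncard = n → (through A).Nonempty)
    (d : ℕ) (A : Set (Submodule F (Fin (m + 2) → F))) (hA : IsArc A) (hAn : A.ncard = n + d) :
    (through A).Nonempty := by
  induction d generalizing A with
  | zero => exact h A hA hAn
  | succ d ih =>
    obtain ⟨P, Q, hP, hQ, hPQ⟩ : ∃ P Q, P ∈ A ∧ Q ∈ A ∧ P ≠ Q := by
      have : 1 < A.ncard := by omega
      rw [Set.one_lt_ncard_iff] at this
      obtain ⟨P, Q, h1, h2, h3⟩ := this
      exact ⟨P, Q, h1, h2, h3⟩
    have e1 : (A \ {P}).ncard = n + d := by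
      rw [Set.ncard_sdiff_singleton_of_mem hP, hAn]
      omega
    have e2 : (A \ {Q}).ncard = n + d := by
      rw [Set.ncard_sdiff_singleton_of_mem hQ, hAn]
      omega
    obtain ⟨C, hC⟩ := ih _ (arc_subset hA Set.sdiff_subset) e1
    obtain ⟨D, hD⟩ := ih _ (arc_subset hA Set.sdiff_subset) e2
    have hQ' : Q ∈ A \ {P} := ⟨hQ, fun h => hPQ h.symm⟩
    have e3 : ((A \ {P}) \ {Q}).ncard = n + d - 1 := by
      rw [Set.ncard_sdiff_singleton_of_mem hQ', e1]
    have hCD : C = D := by
      refine unique_through hq (A := (A \ {P}) \ {Q})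
        (arc_subset hA (Set.sdiff_subset.trans Set.sdiff_subset)) (by omega)
        ⟨hC.1, Set.sdiff_subset.trans hC.2⟩ ⟨hD.1, ?_⟩
      rintro R ⟨⟨h1, -⟩, h2⟩
      exact hD.2 ⟨h1, h2⟩
    subst hCD
    refine ⟨C, hC.1, fun R hR => ?_⟩
    by_cases hRP : R = P
    · subst hRP
      exact hD.2 ⟨hR, hPQ⟩
    · exact hC.2 ⟨hR, hRP⟩

end Pool.Agent.Helper17.NRC
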