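import Pool.Agent.Helper17.NRC.G

set_option autoImplicit false

namespace Pool.Agent.Helper17.NRC

open Finset

/-! ### the hyperoval -/

variable {F : Type} [Field F]

/-- the points `(1,t,t^2)`, `(0,0,1)` and `(0,1,0)` -/
def hv : Option (Option F) → (Fin 3 → F)
  | some (some t) => ![1, t, t ^ 2]
  | some none => ![0, 0, 1]
  | none => ![0, 1, 0]

theorem hv_ne (s : Option (Option F)) : hv s ≠ 0 := by
  rcases s with _ | _ | t
  · intro h; have := congrFun h 1; simp [hv] at this
  · intro h; have := congrFun h 2; simp [hv] at this
  · intro h; have := congrFun h 0; simp [hv] at this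

theorem hv_inj : Function.Injective fun s : Option (Option F) => F ∙ hv s := by
  intro s s' h
  obtain ⟨c, hc, h1⟩ := eq_of_span h
  rcases s with _ | _ | t <;> rcases s' with _ | _ | t'
  · rfl
  · exfalso; have := congrFun h1 1; simp [hv] at this
  · exfalso; have := congrFun h1 0; simp [hv] at this; exact hc this.symm
  · exfalso; have := congrFun h1 2; simp [hv] at this
  · rfl
  · exfalso; have := congrFun h1 0; simp [hv] at this; exact hc this.symm
  · exfalso; have := congrFun h1 0; simp [hv] at this
  · exfalso; have := congrFun h1 0; simp [hv] at this
  · have h2 := congrFun h1 0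
    have h3 := congrFun h1 1
    simp [hv] at h2 h3
    rw [h3, ← h2]
    simp

theorem hyperoval_arc [Fintype F] [CharP F 2] :
    IsArc (Set.range fun s : Option (Option F) => F ∙ hv s) := by
  classical
  refine ⟨?_, ?_⟩
  · rintro _ ⟨s, rfl⟩
    exact ⟨hv s, hv_ne s, rfl⟩
  · intro f hf
    have h1 : {P | P ∈ (Set.range fun s : Option (Option F) => F ∙ hv s) ∧
        P ≤ LinearMap.ker f} = (fun s : Option (Option F) => F ∙ hv s) '' {s | f (hv s) = 0} := by
      ext P
      constructor
      · rintro ⟨⟨s, rfl⟩, h2⟩
        refine ⟨s, ?_, rfl⟩
        exact h2 (Submodule.mem_span_singleton_self _)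
      · rintro ⟨s, hs, rfl⟩
        refine ⟨⟨s, rfl⟩, ?_⟩
        rw [Submodule.span_singleton_le_iff_mem]
        exact hs
    rw [h1, Set.ncard_image_of_injective _ hv_inj]
    obtain ⟨a, b, c, hfabc⟩ : ∃ a b c : F, ∀ x : Fin 3 → F, f x = a * x 0 + b * x 1 + c * x 2 := by
      refine ⟨f (Pi.single 0 1), f (Pi.single 1 1), f (Pi.single 2 1), fun x => ?_⟩
      have h2 : x = x 0 • Pi.single 0 1 + x 1 • Pi.single 1 1 + x 2 • Pi.single 2 1 := by
        funext i
        fin_cases i <;> simp
      conv_lhs => rw [h2]
      simp only [map_add, map_smul, smul_eq_mul]
      ring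
    have hne : ¬ (a = 0 ∧ b = 0 ∧ c = 0) := by
      rintro ⟨rfl, rfl, rfl⟩
      apply hf
      refine LinearMap.ext fun x => ?_
      rw [hfabc]
      simp
    have v1 : ∀ t : F, f (hv (some (some t))) = a + b * t + c * t ^ 2 := by
      intro t
      rw [hfabc]
      simp [hv]
    have v2 : f (hv (some none)) = c := by
      rw [hfabc]
      simp [hv]
    have v3 : f (hv none) = b := by
      rw [hfabc]
      simp [hv]
    have hsq : ∀ s t : F, s ^ 2 = t ^ 2 → s = t := by
      intro s t hst
      have h2 : (s - t) ^ 2 = 0 := by
        have h3 : (2 : F) = 0 := by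
          have := CharP.cast_eq_zero F 2
          simpa using this
        have h4 : (s - t) ^ 2 = s ^ 2 - t ^ 2 + 2 * (t ^ 2 - s * t) := by ring
        rw [h4, hst, h3]
        ring
      exact sub_eq_zero.1 (pow_eq_zero_iff (two_ne_zero) |>.1 h2)
    -- at most two zeros
    by_contra hcon
    push Not at hcon
    have h2 : 2 < {s : Option (Option F) | f (hv s) = 0}.ncard := by omega
    rw [Set.two_lt_ncard_iff] at h2
    obtain ⟨x, y, z, hx, hy, hz, hxy, hxz, hyz⟩ := h2
    change f (hv x) = 0 at hx
    change f (hv y) = 0 at hy
    change f (hv z) = 0 at hz
    by_cases hb : b = 0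
    · by_cases hc : c = 0
      · have ha : a ≠ 0 := fun h => hne ⟨h, hb, hc⟩
        have key : ∀ t : F, f (hv (some (some t))) ≠ 0 := by
          intro t
          rw [v1, hb, hc]
          simpa using ha
        rcases x with _ | _ | x
        · rcases y with _ | _ | y
          · exact hxy rfl
          · rcases z with _ | _ | z
            · exact hxz rfl
            · exact hyz rfl
            · exact key z hz
          · exact key y hy
        · rcases y with _ | _ | y
          · rcases z with _ | _ | z
            · exact hyz rfl
            · exact hxz rfl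
            · exact key z hz
          · exact hxy rfl
          · exact key y hy
        · exact key x hx
      · have hnn : f (hv (some none)) ≠ 0 := by rw [v2]; exact hc
        have key : ∀ s t : F, f (hv (some (some s))) = 0 → f (hv (some (some t))) = 0 → s = t := by
          intro s t hs ht
          rw [v1, hb] at hs ht
          apply hsq
          have : c * (s ^ 2 - t ^ 2) = 0 := by linear_combination hs - ht
          exact sub_eq_zero.1 ((mul_eq_zero.1 this).resolve_left hc)
        rcases x with _ | _ | x
        · rcases y with _ | _ | y
          · exact hxy rfl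
          · exact hnn hy
          · rcases z with _ | _ | z
            · exact hxz rfl
            · exact hnn hz
            · exact hyz (by rw [key y z hy hz])
        · exact hnn hx
        · rcases y with _ | _ | y
          · rcases z with _ | _ | z
            · exact hyz rfl
            · exact hnn hz
            · exact hxz (by rw [key x z hx hz])
          · exact hnn hy
          · exact hxy (by rw [key x y hx hy])
    · have hnn : f (hv none) ≠ 0 := by rw [v3]; exact hb
      by_cases hc : c = 0
      · have key : ∀ s t : F, f (hv (some (some s))) = 0 → f (hv (some (some t))) = 0 → s = t := by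
          intro s t hs ht
          rw [v1, hc] at hs ht
          have : b * (s - t) = 0 := by linear_combination hs - ht
          exact sub_eq_zero.1 ((mul_eq_zero.1 this).resolve_left hb)
        rcases x with _ | _ | x
        · exact hnn hx
        · rcases y with _ | _ | y
          · exact hnn hy
          · exact hxy rfl
          · rcases z with _ | _ | z
            · exact hnn hz
            · exact hxz rfl
            · exact hyz (by rw [key y z hy hz])
        · rcases y with _ | _ | y
          · exact hnn hy
          · rcases z with _ | _ | z
            · exact hnn hz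
            · exact hyz rfl
            · exact hxz (by rw [key x z hx hz])
          · exact hxy (by rw [key x y hx hy])
      · have hnn2 : f (hv (some none)) ≠ 0 := by rw [v2]; exact hc
        rcases x with _ | _ | x
        · exact hnn hx
        · exact hnn2 hx
        · rcases y with _ | _ | y
          · exact hnn hy
          · exact hnn2 hy
          · rcases z with _ | _ | z
            · exact hnn hz
            · exact hnn2 hz
            · rw [v1] at hx hy hz
              have e1 : (x - y) * (b + c * (x + y)) = 0 := by linear_combination hx - hy
              have e2 : (x - z) * (b + c * (x + z)) = 0 := by linear_combination hx - hz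
              have f1 : x - y ≠ 0 := fun h => hxy (by rw [sub_eq_zero.1 h])
              have f2 : x - z ≠ 0 := fun h => hxz (by rw [sub_eq_zero.1 h])
              have g1 := (mul_eq_zero.1 e1).resolve_left f1
              have g2 := (mul_eq_zero.1 e2).resolve_left f2
              have g3 : c * (y - z) = 0 := by linear_combination g1 - g2
              exact hyz (by rw [sub_eq_zero.1 ((mul_eq_zero.1 g3).resolve_left hc)])

theorem nrc_card [Fintype F] {k : ℕ} {C : Set (Submodule F (Fin k → F))} (hC : IsNRC C) :
    C.ncard ≤ Fintype.card F + 1 := by
  classical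
  obtain ⟨e, rfl⟩ := hC
  rw [← Set.image_univ]
  refine (Set.ncard_image_le (Set.toFinite _)).trans ?_
  rw [Set.ncard_univ, Nat.card_eq_fintype_card, Fintype.card_option]

theorem hyperoval_not [Fintype F] [CharP F 2] :
    ∃ A : Set (Submodule F (Fin 3 → F)), IsArc A ∧ A.ncard = Fintype.card F + 2 ∧
      ¬ ∃ C, IsNRC C ∧ A ⊆ C := by
  classical
  refine ⟨_, hyperoval_arc, ?_, ?_⟩
  · rw [← Set.image_univ, Set.ncard_image_of_injective _ hv_inj, Set.ncard_univ,
      Nat.card_eq_fintype_card, Fintype.card_option, Fintype.card_option]
  · rintro ⟨C, hC, hAC⟩
    have h1 := Set.ncard_le_ncard hAC (Set.toFinite _)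
    have h2 := nrc_card hC
    have h3 : (Set.range fun s : Option (Option F) => F ∙ hv s).ncard = Fintype.card F + 2 := by
      rw [← Set.image_univ, Set.ncard_image_of_injective _ hv_inj, Set.ncard_univ,
        Nat.card_eq_fintype_card, Fintype.card_option, Fintype.card_option]
    omega

end Pool.Agent.Helper17.NRC
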