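import Pool.Agent.Helper17.NRC.H

set_option autoImplicit false

namespace Pool.Agent.Helper17.NRC

open Finset

/-- The set of Q1: the integers `n` with `k ≤ n ≤ q` such that every `n`-arc of `PG(k-1,q)` is
contained in a normal rational curve. -/
def Good (F : Type) [Field F] [Fintype F] (k : ℕ) : Set ℕ :=
  {n | k ≤ n ∧ n ≤ Fintype.card F ∧ ∀ A : Set (Submodule F (Fin k → F)), IsArc A → A.ncard = n →
    ∃ C, IsNRC C ∧ A ⊆ C}

/-- The number of normal rational curves containing a given `n`-arc. -/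
def number (q k n : ℕ) : ℕ :=
  if n = k then (q - 1) ^ (k - 1) * (q - 2).descFactorial (k - 3)
  else if n = k + 1 then (q - 2).descFactorial (k - 2) else 1

variable {F : Type} [Field F] [Fintype F]

theorem number_k {m : ℕ} (hq : m + 3 < Fintype.card F)
    {A : Set (Submodule F (Fin (m + 3) → F))} (hA : IsArc A) (hn : A.ncard = m + 3) :
    (through A).ncard = (Fintype.card F - 1) ^ (m + 2) * (Fintype.card F - 2).descFactorial m := by
  obtain ⟨φ, rfl⟩ := arc_k (m := m + 1) hA hn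
  rw [through_img_card, X0_card hq]

theorem number_k1 {m : ℕ} (hq : m + 3 < Fintype.card F)
    {A : Set (Submodule F (Fin (m + 3) → F))} (hA : IsArc A) (hn : A.ncard = m + 4) :
    (through A).ncard = (Fintype.card F - 2).descFactorial (m + 1) := by
  obtain ⟨φ, a, ha, rfl⟩ := arc_k1 (m := m + 1) hA hn
  rw [through_img_card, through_point_card (m := m + 1) hq a ha]

theorem nonempty_k {m : ℕ} (hq : m + 3 < Fintype.card F)
    {A : Set (Submodule F (Fin (m + 3) → F))} (hA : IsArc A) (hn : A.ncard = m + 3) :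
    (through A).Nonempty := by
  refine Set.nonempty_of_ncard_ne_zero ?_
  rw [number_k hq hA hn]
  refine mul_ne_zero (pow_ne_zero _ (by omega)) ?_
  rw [Ne, Nat.descFactorial_eq_zero_iff_lt]
  omega

theorem nonempty_k1 {m : ℕ} (hq : m + 3 < Fintype.card F)
    {A : Set (Submodule F (Fin (m + 3) → F))} (hA : IsArc A) (hn : A.ncard = m + 4) :
    (through A).Nonempty := by
  refine Set.nonempty_of_ncard_ne_zero ?_
  rw [number_k1 hq hA hn, Ne, Nat.descFactorial_eq_zero_iff_lt]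
  omega

theorem main_unique {k : ℕ} (hk : 3 ≤ k) (hq : k < Fintype.card F)
    {A : Set (Submodule F (Fin k → F))} (hA : IsArc A) (hn : k + 2 ≤ A.ncard)
    {C D : Set (Submodule F (Fin k → F))} (hC : IsNRC C) (hD : IsNRC D) (hAC : A ⊆ C)
    (hAD : A ⊆ D) : C = D := by
  obtain ⟨m, rfl⟩ : ∃ m, k = m + 2 := ⟨k - 2, by omega⟩
  exact unique_through hq hA hn ⟨hC, hAC⟩ ⟨hD, hAD⟩

theorem main_small {k : ℕ} (hk : 3 ≤ k) (hq : k < Fintype.card F)
    {A : Set (Submodule F (Fin k → F))} (hA : IsArc A) (hn : k ≤ A.ncard) (hn' : A.ncard ≤ k + 2) :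
    ∃ C, IsNRC C ∧ A ⊆ C := by
  obtain ⟨m, rfl⟩ : ∃ m, k = m + 3 := ⟨k - 3, by omega⟩
  have : A.ncard = m + 3 ∨ A.ncard = m + 4 ∨ A.ncard = m + 5 := by omega
  rcases this with h | h | h
  · exact nonempty_k hq hA h
  · exact nonempty_k1 hq hA h
  · exact exists_through_k2 (m := m + 1) hA h

theorem main_number {k : ℕ} (hk : 3 ≤ k) (hq : k < Fintype.card F)
    {A : Set (Submodule F (Fin k → F))} (hA : IsArc A) (hn : k ≤ A.ncard)
    (hex : ∃ C, IsNRC C ∧ A ⊆ C) :
    {C : Set (Submodule F (Fin k → F)) | IsNRC C ∧ A ⊆ C}.ncard =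
      number (Fintype.card F) k A.ncard := by
  unfold number
  split_ifs with h1 h2
  · obtain ⟨m, rfl⟩ : ∃ m, k = m + 3 := ⟨k - 3, by omega⟩
    exact number_k hq hA h1
  · obtain ⟨m, rfl⟩ : ∃ m, k = m + 3 := ⟨k - 3, by omega⟩
    exact number_k1 hq hA h2
  · obtain ⟨C, hC⟩ := hex
    rw [Set.ncard_eq_one]
    refine ⟨C, ?_⟩
    ext D
    constructor
    · rintro ⟨h3, h4⟩
      exact main_unique hk hq hA (by omega) h3 hC.1 h4 hC.2
    · rintro rfl
      exact hC

theorem main_good {k : ℕ} (hk : 3 ≤ k) (hq : k < Fintype.card F) (n : ℕ) :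
    n ∈ Good F k ↔ k ≤ n ∧ n ≤ Fintype.card F ∧ (n ≤ k + 2 ∨
      ∀ A : Set (Submodule F (Fin k → F)), IsArc A → n ≤ A.ncard → ∃ C, IsNRC C ∧ A ⊆ C) := by
  constructor
  · rintro ⟨h1, h2, h3⟩
    refine ⟨h1, h2, ?_⟩
    by_cases h : n ≤ k + 2
    · exact Or.inl h
    · right
      intro A hA hn
      obtain ⟨m, rfl⟩ : ∃ m, k = m + 2 := ⟨k - 2, by omega⟩
      obtain ⟨d, hd⟩ := Nat.exists_eq_add_of_le hn
      exact larger hq (n := n) (by omega) (fun A hA hn => h3 A hA hn) d A hA hd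
  · rintro ⟨h1, h2, h3⟩
    refine ⟨h1, h2, fun A hA hn => ?_⟩
    rcases h3 with h3 | h3
    · exact main_small hk hq hA (by omega) (by omega)
    · exact h3 A hA hn.ge

theorem good_three_even [CharP F 2] (hq : 3 < Fintype.card F) (n : ℕ) :
    n ∈ Good F 3 ↔ 3 ≤ n ∧ n ≤ 5 ∧ n ≤ Fintype.card F := by
  rw [main_good le_rfl hq]
  constructor
  · rintro ⟨h1, h2, h3 | h3⟩
    · exact ⟨h1, h3, h2⟩
    · exfalso
      obtain ⟨A, hA, hn, hnot⟩ := hyperoval_not (F := F)
      exact hnot (h3 A hA (by omega))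
  · rintro ⟨h1, h2, h3⟩
    exact ⟨h1, h3, Or.inl h2⟩

end Pool.Agent.Helper17.NRC
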