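import Pool.Agent.Helper17.NRC.I

set_option autoImplicit false

namespace Pool.Agent.Helper17.NRC

open Finset Polynomial

/-! ### arcs in `PG(3, 2^h)` which are not twisted cubics -/

variable {F : Type} [Field F]

/-- the points `(1,t,t^σ,t^(σ+1))` and `(0,0,0,1)` -/
def cv (σ : ℕ) : Option F → (Fin 4 → F)
  | some t => ![1, t, t ^ σ, t ^ (σ + 1)]
  | none => ![0, 0, 0, 1]

theorem cv_ne (σ : ℕ) (s : Option F) : cv σ s ≠ 0 := by
  rcases s with _ | t
  · intro h; have := congrFun h 3; simp [cv] at this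
  · intro h; have := congrFun h 0; simp [cv] at this

theorem cv_inj (σ : ℕ) : Function.Injective fun s : Option F => F ∙ cv σ s := by
  intro s s' h
  obtain ⟨c, hc, h1⟩ := eq_of_span h
  rcases s with _ | t <;> rcases s' with _ | t'
  · rfl
  · exfalso; have := congrFun h1 0; simp [cv] at this; exact hc this.symm
  · exfalso; have := congrFun h1 0; simp [cv] at this
  · have h2 := congrFun h1 0
    have h3 := congrFun h1 1
    simp [cv] at h2 h3
    rw [h3, ← h2]
    simp

theorem eq_of_pow [Fintype F] {h e : ℕ} (hF : Fintype.card F = 2 ^ h) (hco : Nat.Coprime e h)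
    {u v : F} (hu : u ≠ 0) (hv : v ≠ 0) (huv : u ^ 2 ^ e * v = v ^ 2 ^ e * u) : u = v := by
  have hx0 : u / v ≠ 0 := div_ne_zero hu hv
  have h1 : (u / v) ^ (2 ^ e - 1) = 1 := by
    have h2 : (u / v) ^ (2 ^ e - 1) * (u / v) = u / v := by
      rw [← pow_succ, Nat.sub_add_cancel Nat.one_le_two_pow, div_pow]
      rw [div_eq_div_iff (pow_ne_zero _ hv) hv, huv]
      ring
    exact mul_right_cancel₀ hx0 (by rw [h2, one_mul])
  have h2 : (u / v) ^ (2 ^ h - 1) = 1 := by
    rw [← hF]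
    exact FiniteField.pow_card_sub_one_eq_one _ hx0
  have h3 : orderOf (u / v) ∣ Nat.gcd (2 ^ e - 1) (2 ^ h - 1) :=
    Nat.dvd_gcd (orderOf_dvd_of_pow_eq_one h1) (orderOf_dvd_of_pow_eq_one h2)
  rw [Nat.pow_sub_one_gcd_pow_sub_one, hco] at h3
  have h4 : orderOf (u / v) = 1 := Nat.dvd_one.1 (by simpa using h3)
  rw [orderOf_eq_one_iff, div_eq_one_iff_eq hv] at h4
  exact h4

theorem three_roots [Fintype F] [CharP F 2] {h e : ℕ} (hF : Fintype.card F = 2 ^ h)
    (hco : Nat.Coprime e h) {B C D x y z : F} (hxy : x ≠ y) (hxz : x ≠ z) (hyz : y ≠ z)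
    (hx : B * x ^ 2 ^ e + C * x + D = 0) (hy : B * y ^ 2 ^ e + C * y + D = 0)
    (hz : B * z ^ 2 ^ e + C * z + D = 0) : B = 0 ∧ C = 0 ∧ D = 0 := by
  have e1 : B * (x - y) ^ 2 ^ e + C * (x - y) = 0 := by
    rw [sub_pow_char_pow]
    linear_combination hx - hy
  have e2 : B * (x - z) ^ 2 ^ e + C * (x - z) = 0 := by
    rw [sub_pow_char_pow]
    linear_combination hx - hz
  have n1 : x - y ≠ 0 := sub_ne_zero.2 hxy
  have n2 : x - z ≠ 0 := sub_ne_zero.2 hxz
  have hB : B = 0 := by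
    by_contra hB
    apply hyz
    have h3 : B * ((x - y) ^ 2 ^ e * (x - z) - (x - z) ^ 2 ^ e * (x - y)) = 0 := by
      linear_combination (x - z) * e1 - (x - y) * e2
    have h4 := (mul_eq_zero.1 h3).resolve_left hB
    have h5 := eq_of_pow hF hco n1 n2 (sub_eq_zero.1 h4)
    linear_combination -h5
  have hC : C = 0 := by
    rw [hB, zero_mul, zero_add] at e1
    exact (mul_eq_zero.1 e1).resolve_right n1
  refine ⟨hB, hC, ?_⟩
  rw [hB, hC] at hx
  simpa using hx

theorem cv_arc [Fintype F] [CharP F 2] {h e : ℕ} (hF : Fintype.card F = 2 ^ h)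
    (hco : Nat.Coprime e h) : IsArc (Set.range fun s : Option F => F ∙ cv (2 ^ e) s) := by
  classical
  refine ⟨?_, ?_⟩
  · rintro _ ⟨s, rfl⟩
    exact ⟨cv _ s, cv_ne _ s, rfl⟩
  · intro f hf
    have h1 : {P | P ∈ (Set.range fun s : Option F => F ∙ cv (2 ^ e) s) ∧
        P ≤ LinearMap.ker f} = (fun s : Option F => F ∙ cv (2 ^ e) s) ''
          {s | f (cv (2 ^ e) s) = 0} := by
      ext P
      constructor
      · rintro ⟨⟨s, rfl⟩, h2⟩
        refine ⟨s, ?_, rfl⟩
        exact h2 (Submodule.mem_span_singleton_self _)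
      · rintro ⟨s, hs, rfl⟩
        refine ⟨⟨s, rfl⟩, ?_⟩
        rw [Submodule.span_singleton_le_iff_mem]
        exact hs
    rw [h1, Set.ncard_image_of_injective _ (cv_inj _)]
    obtain ⟨a, b, c, d, hfabc⟩ : ∃ a b c d : F, ∀ x : Fin 4 → F,
        f x = a * x 0 + b * x 1 + c * x 2 + d * x 3 := by
      refine ⟨f (Pi.single 0 1), f (Pi.single 1 1), f (Pi.single 2 1), f (Pi.single 3 1),
        fun x => ?_⟩
      have h2 : x = x 0 • Pi.single 0 1 + x 1 • Pi.single 1 1 + x 2 • Pi.single 2 1 +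
          x 3 • Pi.single 3 1 := by
        funext i
        fin_cases i <;> simp
      conv_lhs => rw [h2]
      simp only [map_add, map_smul, smul_eq_mul]
      ring
    have hne : ¬ (a = 0 ∧ b = 0 ∧ c = 0 ∧ d = 0) := by
      rintro ⟨rfl, rfl, rfl, rfl⟩
      apply hf
      refine LinearMap.ext fun x => ?_
      rw [hfabc]
      simp
    have v1 : ∀ t : F, f (cv (2 ^ e) (some t)) = a + b * t + c * t ^ 2 ^ e + d * t ^ (2 ^ e + 1) := by
      intro t
      rw [hfabc]
      simp [cv]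
    have v2 : f (cv (2 ^ e) none) = d := by
      rw [hfabc]
      simp [cv]
    by_contra hcon
    push Not at hcon
    set Z : Set (Option F) := {s | f (cv (2 ^ e) s) = 0} with hZ
    have hZ4 : 3 < Z.ncard := by omega
    by_cases hd : d = 0
    · have hnZ : none ∈ Z := by
        show f (cv (2 ^ e) none) = 0
        rw [v2, hd]
      have h2 : 2 < (Z \ {none}).ncard := by
        rw [Set.ncard_sdiff_singleton_of_mem hnZ]
        omega
      rw [Set.two_lt_ncard_iff] at h2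
      obtain ⟨x, y, z, ⟨hx, hx'⟩, ⟨hy, hy'⟩, ⟨hz, hz'⟩, hxy, hxz, hyz⟩ := h2
      rcases x with _ | x
      · exact hx' rfl
      rcases y with _ | y
      · exact hy' rfl
      rcases z with _ | z
      · exact hz' rfl
      change f (cv (2 ^ e) (some x)) = 0 at hx
      change f (cv (2 ^ e) (some y)) = 0 at hy
      change f (cv (2 ^ e) (some z)) = 0 at hz
      rw [v1, hd] at hx hy hz
      obtain ⟨h3, h4, h5⟩ := three_roots hF hco (B := c) (C := b) (D := a)
        (x := x) (y := y) (z := z)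
        (fun h => hxy (by rw [h])) (fun h => hxz (by rw [h])) (fun h => hyz (by rw [h]))
        (by linear_combination hx) (by linear_combination hy) (by linear_combination hz)
      exact hne ⟨h5, h4, h3, hd⟩
    · have hnZ : none ∉ Z := by
        intro h
        change f (cv (2 ^ e) none) = 0 at h
        rw [v2] at h
        exact hd h
      obtain ⟨w, hw⟩ : Z.Nonempty := Set.nonempty_of_ncard_ne_zero (by omega)
      have h2 : 2 < (Z \ {w}).ncard := by
        rw [Set.ncard_sdiff_singleton_of_mem hw]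
        omega
      rw [Set.two_lt_ncard_iff] at h2
      obtain ⟨x, y, z, ⟨hx, hx'⟩, ⟨hy, hy'⟩, ⟨hz, hz'⟩, hxy, hxz, hyz⟩ := h2
      rcases w with _ | w
      · exact hnZ hw
      rcases x with _ | x
      · exact hnZ hx
      rcases y with _ | y
      · exact hnZ hy
      rcases z with _ | z
      · exact hnZ hz
      change f (cv (2 ^ e) (some w)) = 0 at hw
      change f (cv (2 ^ e) (some x)) = 0 at hx
      change f (cv (2 ^ e) (some y)) = 0 at hy
      change f (cv (2 ^ e) (some z)) = 0 at hz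
      rw [v1] at hw hx hy hz
      have key : ∀ s : F, some s ≠ some w → a + b * s + c * s ^ 2 ^ e + d * s ^ (2 ^ e + 1) = 0 →
          (b + d * w ^ 2 ^ e) * ((s - w)⁻¹) ^ 2 ^ e + (c + d * w) * (s - w)⁻¹ + d = 0 := by
        intro s hsw hs
        have hne' : s - w ≠ 0 := sub_ne_zero.2 fun h => hsw (by rw [h])
        have hpow : (s - w) ^ 2 ^ e ≠ 0 := pow_ne_zero _ hne'
        have hexp : (s - w) ^ 2 ^ e = s ^ 2 ^ e - w ^ 2 ^ e := sub_pow_char_pow _ _ _
        have h3 : ((b + d * w ^ 2 ^ e) * ((s - w)⁻¹) ^ 2 ^ e + (c + d * w) * (s - w)⁻¹ + d) *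
            ((s - w) ^ 2 ^ e * (s - w)) = 0 := by
          have h4 : ((b + d * w ^ 2 ^ e) * ((s - w)⁻¹) ^ 2 ^ e + (c + d * w) * (s - w)⁻¹ + d) *
            ((s - w) ^ 2 ^ e * (s - w)) = (b + d * w ^ 2 ^ e) * (s - w) +
              (c + d * w) * (s - w) ^ 2 ^ e + d * ((s - w) ^ 2 ^ e * (s - w)) := by
            rw [inv_pow]
            field_simp
          rw [h4, hexp]
          linear_combination hs - hw
        exact (mul_eq_zero.1 h3).resolve_right (mul_ne_zero hpow hne')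
      have hinv : ∀ s s' : F, some s ≠ some s' → (s - w)⁻¹ ≠ (s' - w)⁻¹ := by
        intro s s' hss h
        apply hss
        rw [sub_left_inj.1 (inv_injective h)]
      obtain ⟨-, -, h5⟩ := three_roots hF hco (hinv x y hxy) (hinv x z hxz) (hinv y z hyz)
        (key x hx' hx) (key y hy' hy) (key z hz' hz)
      exact hd h5

theorem proportional {σ : ℕ} (hσ : 4 ≤ σ) {P0 P1 P2 : F[X]} (h0 : P0 ≠ 0)
    (d0 : P0.natDegree ≤ 3) (d2 : P2.natDegree ≤ 3) (h : P1 ^ σ = P0 ^ (σ - 1) * P2) :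
    ∃ l : F, P1 = C l * P0 := by
  classical
  obtain ⟨g, v, u, hv, hu, hg⟩ : ∃ g v u : F[X], P0 = g * v ∧ P1 = g * u ∧ IsCoprime v u := by
    have hgne : EuclideanDomain.gcd P0 P1 ≠ 0 := fun hh =>
      h0 (EuclideanDomain.gcd_eq_zero_iff.1 hh).1
    obtain ⟨v, hv⟩ := EuclideanDomain.gcd_dvd_left P0 P1
    obtain ⟨u, hu⟩ := EuclideanDomain.gcd_dvd_right P0 P1
    refine ⟨EuclideanDomain.gcd P0 P1, v, u, hv, hu, ?_⟩
    have hb := EuclideanDomain.gcd_eq_gcd_ab P0 P1
    refine ⟨EuclideanDomain.gcdA P0 P1, EuclideanDomain.gcdB P0 P1, ?_⟩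
    apply mul_left_cancel₀ hgne
    have h1 : EuclideanDomain.gcd P0 P1 * (EuclideanDomain.gcdA P0 P1 * v +
        EuclideanDomain.gcdB P0 P1 * u) =
        (EuclideanDomain.gcd P0 P1 * v) * EuclideanDomain.gcdA P0 P1 +
          (EuclideanDomain.gcd P0 P1 * u) * EuclideanDomain.gcdB P0 P1 := by ring
    rw [h1, ← hv, ← hu, ← hb, mul_one]
  have hg0 : g ≠ 0 := fun h' => h0 (by rw [hv, h', zero_mul])
  have hv0 : v ≠ 0 := fun h' => h0 (by rw [hv, h', mul_zero])
  have h1 : g * u ^ σ = v ^ (σ - 1) * P2 := by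
    apply mul_left_cancel₀ (pow_ne_zero (σ - 1) hg0)
    have h2 : g ^ (σ - 1) * (g * u ^ σ) = P1 ^ σ := by
      rw [hu, mul_pow, ← mul_assoc, ← pow_succ, Nat.sub_add_cancel (by omega)]
    rw [h2, h, hv]
    ring
  have dv : v.natDegree = 0 := by
    have h3 : v ^ (σ - 1) ∣ g := by
      have h4 : IsCoprime (v ^ (σ - 1)) (u ^ σ) := hg.pow
      exact h4.dvd_of_dvd_mul_right ⟨P2, h1⟩
    have h5 := Polynomial.natDegree_le_of_dvd h3 hg0
    rw [Polynomial.natDegree_pow] at h5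
    have h6 : P0.natDegree = g.natDegree + v.natDegree := by
      rw [hv, Polynomial.natDegree_mul hg0 hv0]
    by_contra hne
    have h7 : 1 ≤ v.natDegree := Nat.one_le_iff_ne_zero.2 hne
    have h8 : 3 * 1 ≤ (σ - 1) * v.natDegree := Nat.mul_le_mul (by omega) h7
    omega
  have du : u.natDegree = 0 := by
    by_cases hP2 : P2 = 0
    · rw [hP2, mul_zero] at h1
      have := (mul_eq_zero.1 h1).resolve_left hg0
      rw [pow_eq_zero_iff (by omega)] at this
      rw [this]
      simp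
    · have h3 : u ^ σ ∣ P2 := by
        have h4 : IsCoprime (u ^ σ) (v ^ (σ - 1)) := hg.symm.pow
        exact h4.dvd_of_dvd_mul_left ⟨g, by rw [← h1]; ring⟩
      have h5 := Polynomial.natDegree_le_of_dvd h3 hP2
      rw [Polynomial.natDegree_pow] at h5
      by_contra hne
      have h7 : 1 ≤ u.natDegree := Nat.one_le_iff_ne_zero.2 hne
      have h8 : 4 * 1 ≤ σ * u.natDegree := Nat.mul_le_mul hσ h7
      omega
  have ev : v = C (v.coeff 0) := Polynomial.eq_C_of_natDegree_eq_zero dv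
  have eu : u = C (u.coeff 0) := Polynomial.eq_C_of_natDegree_eq_zero du
  have hv00 : v.coeff 0 ≠ 0 := by
    intro h'
    apply hv0
    rw [ev, h', C_0]
  refine ⟨u.coeff 0 / v.coeff 0, ?_⟩
  rw [hu, hv, eu, ev]
  simp only [coeff_C_zero]
  have h9 : C (u.coeff 0 / v.coeff 0) * (g * C (v.coeff 0)) =
      g * (C (u.coeff 0 / v.coeff 0) * C (v.coeff 0)) := by ring
  rw [h9, ← C_mul, div_mul_cancel₀ _ hv00]

theorem cv_not [Fintype F] {σ : ℕ} (hσ : 4 ≤ σ) (hq : 3 * σ < Fintype.card F) :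
    ¬ ∃ C : Set (Submodule F (Fin 4 → F)), IsNRC C ∧
      (Set.range fun s : Option F => F ∙ cv σ s) ⊆ C := by
  classical
  rintro ⟨C, hC, hAC⟩
  have hcard : (Set.range fun s : Option F => F ∙ cv σ s).ncard = Fintype.card F + 1 := by
    rw [← Set.image_univ, Set.ncard_image_of_injective _ (cv_inj σ), Set.ncard_univ,
      Nat.card_eq_fintype_card, Fintype.card_option]
  have hCA : C = Set.range fun s : Option F => F ∙ cv σ s :=
    (Set.eq_of_subset_of_ncard_le hAC (by rw [hcard]; exact nrc_card hC) (Set.toFinite _)).symm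
  obtain ⟨e, he⟩ := hC
  obtain ⟨P, hP, h1, h2⟩ := poly_of_lin (m := 2) (e : (Fin 4 → F) →ₗ[F] (Fin 4 → F))
  have hid : ∀ s : F, (P 1).eval s ^ σ = (P 0).eval s ^ (σ - 1) * (P 2).eval s := by
    intro s
    have h3 : F ∙ e (nu 4 (some s)) ∈ C := by rw [he]; exact ⟨some s, rfl⟩
    rw [hCA] at h3
    obtain ⟨t, ht⟩ := h3
    obtain ⟨κ, hκ, h4⟩ := eq_of_span ht.symm
    have c0 : (P 0).eval s = κ * cv σ t 0 := by rw [← h1]; exact congrFun h4 0
    have c1 : (P 1).eval s = κ * cv σ t 1 := by rw [← h1]; exact congrFun h4 1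
    have c2 : (P 2).eval s = κ * cv σ t 2 := by rw [← h1]; exact congrFun h4 2
    rw [c0, c1, c2]
    rcases t with _ | t
    · have hσ0 : σ ≠ 0 := by omega
      simp [cv, hσ0]
    · have h5 : κ ^ σ = κ ^ (σ - 1) * κ := by
        rw [← pow_succ, Nat.sub_add_cancel (by omega)]
      simp only [cv, Matrix.cons_val_zero, Matrix.cons_val_one, Matrix.cons_val, mul_one]
      rw [mul_pow, h5]
      ring
  have hpoly : (P 1) ^ σ = (P 0) ^ (σ - 1) * P 2 := by
    refine Polynomial.eq_of_natDegree_lt_card_of_eval_eq _ _ (f := (id : F → F))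
      Function.injective_id (fun s => by simpa using hid s) ?_
    have d1 : ((P 1) ^ σ).natDegree ≤ 3 * σ := by
      refine Polynomial.natDegree_pow_le.trans ?_
      have := hP 1
      nlinarith
    have d2 : ((P 0) ^ (σ - 1) * P 2).natDegree ≤ 3 * σ := by
      refine Polynomial.natDegree_mul_le.trans ?_
      have e0 : ((P 0) ^ (σ - 1)).natDegree ≤ (σ - 1) * (P 0).natDegree :=
        Polynomial.natDegree_pow_le
      have e1 : (σ - 1) * (P 0).natDegree ≤ (σ - 1) * 3 := Nat.mul_le_mul_left _ (hP 0)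
      have e2 := hP 2
      omega
    exact lt_of_le_of_lt (max_le d1 d2) hq
  have hpt : ∀ t : F, ∃ s : Option F, ∃ κ : F, κ ≠ 0 ∧ e (nu 4 s) = κ • cv σ (some t) := by
    intro t
    have h3 : F ∙ cv σ (some t) ∈ C := hAC ⟨some t, rfl⟩
    rw [he] at h3
    obtain ⟨s, hs⟩ := h3
    obtain ⟨κ, hκ, h4⟩ := eq_of_span hs
    exact ⟨s, κ, hκ, h4⟩
  have hP0 : P 0 ≠ 0 := by
    intro h0
    obtain ⟨s, κ, hκ, h3⟩ := hpt 0
    have h4 := congrFun h3 0
    have h5 : (κ • cv σ (some (0 : F))) 0 = κ := by simp [cv]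
    rw [h5] at h4
    apply hκ
    rw [← h4]
    rcases s with _ | s
    · have := h2 0
      rw [h0, coeff_zero] at this
      exact this
    · have := h1 s 0
      rw [h0, eval_zero] at this
      exact this
  obtain ⟨l, hl⟩ := proportional hσ hP0 (hP 0) (hP 2) hpoly
  have hall : ∀ t : F, t = l := by
    intro t
    obtain ⟨s, κ, hκ, h3⟩ := hpt t
    have h4 := congrFun h3 0
    have h5 := congrFun h3 1
    have h6 : (κ • cv σ (some t)) 0 = κ := by simp [cv]
    have h7 : (κ • cv σ (some t)) 1 = κ * t := by simp [cv]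
    rw [h6] at h4
    rw [h7] at h5
    have h8 : e (nu 4 s) 1 = l * e (nu 4 s) 0 := by
      rcases s with _ | s
      · have e0 : e (nu 4 none) 0 = (P 0).coeff 3 := h2 0
        have e1 : e (nu 4 none) 1 = (P 1).coeff 3 := h2 1
        rw [e0, e1, hl, coeff_C_mul]
      · have e0 : e (nu 4 (some s)) 0 = (P 0).eval s := h1 s 0
        have e1 : e (nu 4 (some s)) 1 = (P 1).eval s := h1 s 1
        rw [e0, e1, hl, eval_mul, eval_C]
    rw [h4, h5] at h8
    have h9 : κ * t = κ * l := by rw [h8]; ring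
    exact mul_left_cancel₀ hκ h9
  exact zero_ne_one ((hall 0).trans (hall 1).symm)

theorem exists_e (h : ℕ) (hh : h = 5 ∨ 7 ≤ h) : ∃ e, 2 ≤ e ∧ e + 2 ≤ h ∧ Nat.Coprime e h := by
  by_cases ho : Odd h
  · exact ⟨2, le_rfl, by omega, Nat.coprime_two_left.2 ho⟩
  · rw [Nat.not_odd_iff_even] at ho
    obtain ⟨j, hj⟩ := ho
    by_cases hj2 : Odd j
    · obtain ⟨i, hi⟩ := hj2
      have e1 : h = (2 * i - 1) * 2 + 2 ^ 2 := by omega
      refine ⟨2 * i - 1, by omega, by omega, ?_⟩
      rw [e1, Nat.coprime_mul_left_add_right]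
      refine Nat.Coprime.pow_right 2 ?_
      rw [Nat.coprime_comm, Nat.coprime_two_left]
      exact ⟨i - 1, by omega⟩
    · rw [Nat.not_odd_iff_even] at hj2
      obtain ⟨i, hi⟩ := hj2
      have e1 : h = (2 * i - 1) * 2 + 2 := by omega
      refine ⟨2 * i - 1, by omega, by omega, ?_⟩
      rw [e1, Nat.coprime_mul_left_add_right, Nat.coprime_comm, Nat.coprime_two_left]
      exact ⟨i - 1, by omega⟩

theorem good_four_even [Fintype F] [CharP F 2] {h : ℕ} (hF : Fintype.card F = 2 ^ h)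
    (hh : h = 5 ∨ 7 ≤ h) (n : ℕ) : n ∈ Good F 4 ↔ 4 ≤ n ∧ n ≤ 6 := by
  obtain ⟨e, he1, he2, hco⟩ := exists_e h hh
  have h1 : 2 ^ 2 ≤ 2 ^ e := Nat.pow_le_pow_right (by norm_num) he1
  have h2 : 2 ^ (e + 2) ≤ 2 ^ h := Nat.pow_le_pow_right (by norm_num) he2
  have h3 : 2 ^ (e + 2) = 4 * 2 ^ e := by rw [pow_add]; ring
  have hq : 4 < Fintype.card F := by omega
  rw [main_good (by norm_num) hq]
  constructor
  · rintro ⟨h4, h5, h6 | h6⟩
    · exact ⟨h4, h6⟩
    · exfalso
      refine cv_not (F := F) (σ := 2 ^ e) (by omega) (by omega)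
        (h6 _ (cv_arc hF hco) ?_)
      rw [← Set.image_univ, Set.ncard_image_of_injective _ (cv_inj _), Set.ncard_univ,
        Nat.card_eq_fintype_card, Fintype.card_option]
      omega
  · rintro ⟨h4, h5⟩
    exact ⟨h4, by omega, Or.inl h5⟩

end Pool.Agent.Helper17.NRC
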