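import Pool.Agent.Helper17.NRC.I

set_option autoImplicit false

namespace Pool.Agent.Helper17.NRC

open Finset

variable {F : Type} [Field F]

theorem nrc_two {C : Set (Submodule F (Fin 2 → F))} :
    IsNRC C ↔ C = {P | ∃ x : Fin 2 → F, x ≠ 0 ∧ P = F ∙ x} := by
  have key : ∀ e : (Fin 2 → F) ≃ₗ[F] (Fin 2 → F),
      (Set.range fun t : Option F => F ∙ e (nu 2 t)) =
        {P | ∃ x : Fin 2 → F, x ≠ 0 ∧ P = F ∙ x} := by
    intro e
    ext P
    constructor
    · rintro ⟨t, rfl⟩
      refine ⟨e (nu 2 t), ?_, rfl⟩
      rw [Ne, LinearEquiv.map_eq_zero_iff]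
      intro h
      rcases t with _ | t
      · have := congrFun h 0
        simp [nu] at this
      · have := congrFun h 1
        simp [nu] at this
    · rintro ⟨x, hx, rfl⟩
      obtain ⟨y, rfl⟩ := e.surjective x
      have hy : y ≠ 0 := fun h => hx (by rw [h, map_zero])
      by_cases h1 : y 1 = 0
      · have h0 : y 0 ≠ 0 := by
          intro h0
          apply hy
          funext i
          fin_cases i
          · exact h0
          · exact h1
        refine ⟨none, ?_⟩
        have h2 : y = y 0 • nu 2 none := by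
          funext i
          fin_cases i
          · simp [nu]
          · simp [nu, h1]
        show F ∙ e (nu 2 none) = F ∙ e y
        conv_rhs => rw [h2, map_smul]
        rw [Submodule.span_singleton_smul_eq (IsUnit.mk0 _ h0)]
      · refine ⟨some (y 0 / y 1), ?_⟩
        have h2 : y = y 1 • nu 2 (some (y 0 / y 1)) := by
          funext i
          fin_cases i
          · simp [nu, mul_div_cancel₀, h1]
          · simp [nu]
        show F ∙ e (nu 2 (some (y 0 / y 1))) = F ∙ e y
        conv_rhs => rw [h2, map_smul]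
        rw [Submodule.span_singleton_smul_eq (IsUnit.mk0 _ h1)]
  constructor
  · rintro ⟨e, rfl⟩
    exact key e
  · rintro rfl
    exact ⟨LinearEquiv.refl F _, (key _).symm⟩

theorem two_line {A : Set (Submodule F (Fin 2 → F))} (hA : IsArc A) :
    {C : Set (Submodule F (Fin 2 → F)) | IsNRC C ∧ A ⊆ C} =
      {{P | ∃ x : Fin 2 → F, x ≠ 0 ∧ P = F ∙ x}} := by
  ext C
  simp only [Set.mem_setOf_eq, Set.mem_singleton_iff, nrc_two]
  constructor
  · exact fun h => h.1
  · rintro rfl
    exact ⟨rfl, fun P hP => hA.1 P hP⟩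

end Pool.Agent.Helper17.NRC
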