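import Pool.Agent.Helper17.NRC.I

set_option autoImplicit false

namespace Pool.Agent.Helper17.NRC

open Finset

variable {F : Type} [Field F] {m : ℕ}

theorem card_mem [Fintype F] {k : ℕ} (W : Submodule F (Fin k → F)) {d : ℕ}
    (hd : Module.finrank F W ≤ d) [DecidablePred fun x : Fin k → F => x ∈ W] :
    (univ.filter fun x : Fin k → F => x ∈ W).card ≤ Fintype.card F ^ d := by
  have h1 : (univ.filter fun x : Fin k → F => x ∈ W).card = Nat.card W := by
    rw [Nat.card_eq_fintype_card]
    exact (Fintype.card_subtype _).symm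
  rw [h1, Module.natCard_eq_pow_finrank (K := F), Nat.card_eq_fintype_card]
  exact Nat.pow_le_pow_right Fintype.card_pos hd

theorem arc_finset {n : ℕ} [Finite F] {A : Set (Submodule F (Fin (m + 2) → F))}
    (hA : IsArc A) (v : Fin n → (Fin (m + 2) → F)) (hv : ∀ i, F ∙ v i ∈ A)
    (hinj : Function.Injective fun i => F ∙ v i) (f : (Fin (m + 2) → F) →ₗ[F] F) (hf : f ≠ 0)
    (U : Finset (Fin n)) (hU : m + 2 ≤ U.card) (h0 : ∀ i ∈ U, f (v i) = 0) : False := by
  classical
  have h1 := hA.2 f hf
  have h2 : ((fun i => F ∙ v i) '' (U : Set (Fin n))) ⊆ {P | P ∈ A ∧ P ≤ LinearMap.ker f} := by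
    rintro _ ⟨i, hi, rfl⟩
    refine ⟨hv i, ?_⟩
    show F ∙ v i ≤ _
    rw [Submodule.span_singleton_le_iff_mem]
    exact h0 i hi
  have h3 := Set.ncard_le_ncard h2 (Set.toFinite _)
  rw [Set.ncard_image_of_injective _ hinj, Set.ncard_coe_finset] at h3
  omega

theorem arc_extend [Fintype F] (hm : 1 ≤ m) {A : Set (Submodule F (Fin (m + 2) → F))}
    (hA : IsArc A) (hn : m + 2 ≤ A.ncard) (hq : A.ncard.choose (m + 1) + 2 ≤ Fintype.card F)
    (u : Option F → (Fin (m + 2) → F)) :
    ∃ x : Fin (m + 2) → F, x ≠ 0 ∧ (∀ t, F ∙ x ≠ F ∙ u t) ∧ F ∙ x ∉ A ∧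
      IsArc (insert (F ∙ x) A) := by
  classical
  obtain ⟨n, hn'⟩ : ∃ n, A.ncard = n := ⟨_, rfl⟩
  rw [hn'] at hn hq
  obtain ⟨v, hv, hinj, hAv⟩ := arc_enum hA hn'
  set q := Fintype.card F with hqdef
  have hcount : ∃ x : Fin (m + 2) → F,
      (∀ T ∈ (univ : Finset (Fin n)).powersetCard (m + 1),
        x ∉ Submodule.span F ((T.image v : Finset _) : Set (Fin (m + 2) → F))) ∧
      ∀ t, x ∉ F ∙ u t := by
    by_contra hcon
    push Not at hcon
    have hsub : (univ : Finset (Fin (m + 2) → F)) ⊆
        (((univ : Finset (Fin n)).powersetCard (m + 1)).biUnion fun T =>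
          univ.filter fun x => x ∈ Submodule.span F ((T.image v : Finset _) : Set (Fin (m + 2) → F)))
        ∪ ((univ : Finset (Option F)).biUnion fun t => univ.filter fun x => x ∈ F ∙ u t) := by
      intro x _
      rw [Finset.mem_union, Finset.mem_biUnion, Finset.mem_biUnion]
      by_cases h : ∀ T ∈ (univ : Finset (Fin n)).powersetCard (m + 1),
        x ∉ Submodule.span F ((T.image v : Finset _) : Set (Fin (m + 2) → F))
      · right
        obtain ⟨t, ht⟩ := hcon x h
        exact ⟨t, mem_univ _, by simpa using ht⟩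
      · left
        push Not at h
        obtain ⟨T, hT, hx⟩ := h
        exact ⟨T, hT, by simpa using hx⟩
    have hc := Finset.card_le_card hsub
    have hc1 : (univ : Finset (Fin (m + 2) → F)).card = q ^ (m + 2) := by
      rw [Finset.card_univ, Fintype.card_fun, Fintype.card_fin]
    have hc2 := Finset.card_union_le
      (((univ : Finset (Fin n)).powersetCard (m + 1)).biUnion fun T =>
          univ.filter fun x => x ∈ Submodule.span F ((T.image v : Finset _) : Set (Fin (m + 2) → F)))
      ((univ : Finset (Option F)).biUnion fun t => univ.filter fun x => x ∈ F ∙ u t)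
    have hc3 : (((univ : Finset (Fin n)).powersetCard (m + 1)).biUnion fun T =>
          univ.filter fun x => x ∈ Submodule.span F
            ((T.image v : Finset _) : Set (Fin (m + 2) → F))).card ≤
          n.choose (m + 1) * q ^ (m + 1) := by
      refine (Finset.card_biUnion_le_card_mul _ _ (q ^ (m + 1)) ?_).trans ?_
      · intro T hT
        refine card_mem _ ((finrank_span_finset_le_card _).trans
          (Finset.card_image_le.trans ?_))
        exact (Finset.mem_powersetCard.1 hT).2.le
      · rw [Finset.card_powersetCard, Finset.card_univ, Fintype.card_fin]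
    have hc4 : ((univ : Finset (Option F)).biUnion fun t =>
        univ.filter fun x => x ∈ F ∙ u t).card ≤ (q + 1) * q := by
      refine (Finset.card_biUnion_le_card_mul _ _ q ?_).trans ?_
      · intro t _
        have := card_mem (F ∙ u t) (d := 1) (by
          simpa using finrank_span_le_card (R := F) ({u t} : Set (Fin (m + 2) → F)))
        simpa using this
      · rw [Finset.card_univ, Fintype.card_option]
    rw [hc1] at hc
    have h5 : q ^ (m + 2) = q * q ^ (m + 1) := by ring
    have h6 : (n.choose (m + 1) + 2) * q ^ (m + 1) ≤ q * q ^ (m + 1) :=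
      Nat.mul_le_mul_right _ hq
    have h7 : q ^ 2 ≤ q ^ (m + 1) := Nat.pow_le_pow_right Fintype.card_pos (by omega)
    have h8 : 2 ≤ q := by omega
    nlinarith
  obtain ⟨x, hx1, hx2⟩ := hcount
  have hx0 : x ≠ 0 := by
    rintro rfl
    exact hx2 none (Submodule.zero_mem _)
  have hxA : F ∙ x ∉ A := by
    intro h
    rw [hAv] at h
    obtain ⟨i, hi⟩ := h
    have hx : x ∈ F ∙ v i := by
      have h9 : F ∙ v i = F ∙ x := hi
      rw [h9]
      exact Submodule.mem_span_singleton_self x
    obtain ⟨T, hT1, hT2⟩ : ∃ T : Finset (Fin n), i ∈ T ∧ T.card = m + 1 := by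
      obtain ⟨T, h1, h2, h3⟩ := Finset.exists_subsuperset_card_eq
        (Finset.subset_univ ({i} : Finset (Fin n))) (n := m + 1) (by simp)
        (by rw [Finset.card_univ, Fintype.card_fin]; omega)
      exact ⟨T, h1 (Finset.mem_singleton_self i), h3⟩
    refine hx1 T (Finset.mem_powersetCard.2 ⟨Finset.subset_univ _, hT2⟩) ?_
    refine (Submodule.span_mono ?_) hx
    rw [Set.singleton_subset_iff]
    exact Finset.mem_coe.2 (Finset.mem_image_of_mem v hT1)
  refine ⟨x, hx0, ?_, hxA, ?_, ?_⟩
  · intro t ht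
    apply hx2 t
    rw [← ht]
    exact Submodule.mem_span_singleton_self x
  · intro P hP
    rcases hP with rfl | hP
    · exact ⟨x, hx0, rfl⟩
    · exact hA.1 P hP
  · intro f hf
    by_cases hfx : f x = 0
    · have h1 : {P | P ∈ insert (F ∙ x) A ∧ P ≤ LinearMap.ker f} ⊆
          insert (F ∙ x) {P | P ∈ A ∧ P ≤ LinearMap.ker f} := by
        rintro P ⟨hP | hP, hP'⟩
        · exact Or.inl hP
        · exact Or.inr ⟨hP, hP'⟩
      have h2 := Set.ncard_le_ncard h1 (Set.toFinite _)
      have h3 := Set.ncard_insert_le (F ∙ x) {P | P ∈ A ∧ P ≤ LinearMap.ker f}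
      suffices h4 : {P | P ∈ A ∧ P ≤ LinearMap.ker f}.ncard ≤ m by omega
      by_contra hcon
      push Not at hcon
      set I0 : Finset (Fin n) := univ.filter fun i => f (v i) = 0 with hI0
      have h5 : {P | P ∈ A ∧ P ≤ LinearMap.ker f} = (fun i => F ∙ v i) '' (I0 : Set (Fin n)) := by
        ext P
        constructor
        · rintro ⟨hP, hP'⟩
          rw [hAv] at hP
          obtain ⟨i, rfl⟩ := hP
          refine ⟨i, ?_, rfl⟩
          have hP2 : F ∙ v i ≤ LinearMap.ker f := hP'
          rw [Submodule.span_singleton_le_iff_mem] at hP2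
          simpa [hI0] using hP2
        · rintro ⟨i, hi, rfl⟩
          refine ⟨hv i, ?_⟩
          show F ∙ v i ≤ _
          rw [Submodule.span_singleton_le_iff_mem]
          simpa [hI0] using hi
      rw [h5, Set.ncard_image_of_injective _ hinj, Set.ncard_coe_finset] at hcon
      obtain ⟨T, hTI, hT⟩ := Finset.exists_subset_card_eq (show m + 1 ≤ I0.card by omega)
      obtain ⟨j, hj⟩ : ∃ j, j ∉ T := by
        by_contra hall
        push Not at hall
        have := Finset.card_le_card (fun i _ => hall i : (univ : Finset (Fin n)) ⊆ T)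
        rw [Finset.card_univ, Fintype.card_fin] at this
        omega
      have hxT := hx1 T (Finset.mem_powersetCard.2 ⟨Finset.subset_univ _, hT⟩)
      obtain ⟨g, hgx, hg⟩ := Submodule.exists_dual_map_eq_bot_of_notMem hxT inferInstance
      have hg0 : ∀ i ∈ T, g (v i) = 0 := by
        intro i hi
        have : g (v i) ∈ Submodule.map g
            (Submodule.span F ((T.image v : Finset _) : Set (Fin (m + 2) → F))) :=
          Submodule.mem_map_of_mem (Submodule.subset_span
            (Finset.mem_coe.2 (Finset.mem_image_of_mem v hi)))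
        rw [hg] at this
        exact (Submodule.mem_bot F).1 this
      have hf0 : ∀ i ∈ T, f (v i) = 0 := fun i hi => by
        have := hTI hi
        simpa [hI0] using this
      have hU : m + 2 ≤ (insert j T).card := by
        rw [Finset.card_insert_of_notMem hj]
        omega
      by_cases hh : g (v j) • f - f (v j) • g = 0
      · have h6 := LinearMap.congr_fun hh x
        simp only [LinearMap.sub_apply, LinearMap.smul_apply, smul_eq_mul, hfx, mul_zero,
          zero_sub, LinearMap.zero_apply, neg_eq_zero] at h6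
        have h7 : f (v j) = 0 := (mul_eq_zero.1 h6).resolve_right hgx
        refine arc_finset hA v hv hinj f hf (insert j T) hU ?_
        intro i hi
        rcases Finset.mem_insert.1 hi with rfl | hi
        · exact h7
        · exact hf0 i hi
      · refine arc_finset hA v hv hinj _ hh (insert j T) hU ?_
        intro i hi
        simp only [LinearMap.sub_apply, LinearMap.smul_apply, smul_eq_mul]
        rcases Finset.mem_insert.1 hi with rfl | hi
        · ring
        · rw [hf0 i hi, hg0 i hi]
          ring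
    · have h1 : {P | P ∈ insert (F ∙ x) A ∧ P ≤ LinearMap.ker f} ⊆
          {P | P ∈ A ∧ P ≤ LinearMap.ker f} := by
        rintro P ⟨hP | hP, hP'⟩
        · exfalso
          rw [hP, Submodule.span_singleton_le_iff_mem] at hP'
          exact hfx hP'
        · exact ⟨hP, hP'⟩
      exact (Set.ncard_le_ncard h1 (Set.toFinite _)).trans (hA.2 f hf)

theorem E0_arc [Fintype F] : IsArc (E0 F m) := by
  classical
  refine ⟨?_, ?_⟩
  · rintro _ ⟨i, rfl⟩
    refine ⟨Pi.single i 1, ?_, rfl⟩
    intro h
    have := congrFun h i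
    simp at this
  · intro f hf
    obtain ⟨i, hi⟩ : ∃ i, f (Pi.single i 1) ≠ 0 := by
      by_contra hcon
      push Not at hcon
      apply hf
      refine LinearMap.pi_ext' fun i => ?_
      refine LinearMap.ext_ring ?_
      simpa using hcon i
    have h1 : {P | P ∈ E0 F m ∧ P ≤ LinearMap.ker f} ⊆
        (fun j => F ∙ (Pi.single j 1 : Fin (m + 2) → F)) ''
          ((univ.erase i : Finset (Fin (m + 2))) : Set (Fin (m + 2))) := by
      rintro _ ⟨⟨j, rfl⟩, hj⟩
      refine ⟨j, ?_, rfl⟩
      have hj' : F ∙ (Pi.single j 1 : Fin (m + 2) → F) ≤ LinearMap.ker f := hj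
      rw [Submodule.span_singleton_le_iff_mem] at hj'
      rw [Finset.coe_erase]
      refine ⟨by simp, ?_⟩
      rintro rfl
      exact hi hj'
    have h2 := Set.ncard_le_ncard h1 (Set.toFinite _)
    rw [Set.ncard_image_of_injective _ single_inj, Set.ncard_coe_finset,
      Finset.card_erase_of_mem (mem_univ _), Finset.card_univ, Fintype.card_fin] at h2
    exact h2

theorem E0_ncard [Fintype F] : (E0 F m).ncard = m + 2 := by
  unfold E0
  rw [← Set.image_univ, Set.ncard_image_of_injective _ single_inj, Set.ncard_univ]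
  simp

theorem exists_arc [Fintype F] (hm : 1 ≤ m) (d : ℕ)
    (hq : (m + 2 + d).choose (m + 1) + 2 ≤ Fintype.card F) :
    ∃ A : Set (Submodule F (Fin (m + 2) → F)), IsArc A ∧ A.ncard = m + 2 + d := by
  induction d with
  | zero => exact ⟨E0 F m, E0_arc, E0_ncard⟩
  | succ d ih =>
    have h1 : (m + 2 + d).choose (m + 1) ≤ (m + 2 + (d + 1)).choose (m + 1) :=
      Nat.choose_le_choose _ (by omega)
    obtain ⟨A, hA, hn⟩ := ih (by omega)
    obtain ⟨x, -, -, hxA, hx⟩ := arc_extend hm hA (by omega) (by rw [hn]; omega) (fun _ => 0)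
    refine ⟨_, hx, ?_⟩
    rw [Set.ncard_insert_of_notMem hxA, hn]
    omega

theorem exists_not {k n : ℕ} [Fintype F] (hk : 3 ≤ k) (hkq : k < Fintype.card F) (hn : k + 3 ≤ n)
    (hq : (n - 1).choose (k - 1) + 2 ≤ Fintype.card F) :
    ∃ A : Set (Submodule F (Fin k → F)), IsArc A ∧ A.ncard = n ∧ ¬ ∃ C, IsNRC C ∧ A ⊆ C := by
  obtain ⟨m, rfl⟩ : ∃ m, k = m + 2 := ⟨k - 2, by omega⟩
  obtain ⟨d, rfl⟩ : ∃ d, n = m + 2 + d + 1 := ⟨n - (m + 3), by omega⟩
  have e1 : m + 2 + d + 1 - 1 = m + 2 + d := by omega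
  have e2 : m + 2 - 1 = m + 1 := by omega
  rw [e1, e2] at hq
  obtain ⟨A, hA, hAn⟩ := exists_arc (F := F) (m := m) (by omega) d hq
  by_cases hex : ∃ C, IsNRC C ∧ A ⊆ C
  · obtain ⟨C, ⟨e, he⟩, hAC⟩ := hex
    obtain ⟨x, hx0, hxu, hxA, hx⟩ := arc_extend (by omega) hA (by omega) (by rw [hAn]; omega)
      (fun t => e (nu (m + 2) t))
    refine ⟨_, hx, by rw [Set.ncard_insert_of_notMem hxA, hAn], ?_⟩
    rintro ⟨D, hD, hAD⟩
    have hDC : D = C := main_unique hk hkq hA (by omega) hD ⟨e, he⟩
      ((Set.subset_insert _ _).trans hAD) hAC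
    have h1 : F ∙ x ∈ C := hDC ▸ hAD (Set.mem_insert _ _)
    rw [he] at h1
    obtain ⟨t, ht⟩ := h1
    exact hxu t ht.symm
  · obtain ⟨x, hx0, hxu, hxA, hx⟩ := arc_extend (by omega) hA (by omega) (by rw [hAn]; omega)
      (fun _ => 0)
    refine ⟨_, hx, by rw [Set.ncard_insert_of_notMem hxA, hAn], ?_⟩
    rintro ⟨D, hD, hAD⟩
    exact hex ⟨D, hD, (Set.subset_insert _ _).trans hAD⟩

/-- The largest number of points of an arc of `PG(k-1,q)` that is contained in no normal rational
curve (`0` if there is no such arc). -/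
noncomputable def maxNonrational (F : Type) [Field F] (k : ℕ) : ℕ :=
  sSup {j | ∃ A : Set (Submodule F (Fin k → F)), IsArc A ∧ A.ncard = j ∧ ¬ ∃ C, IsNRC C ∧ A ⊆ C}

theorem le_max {k : ℕ} [Finite F] {A : Set (Submodule F (Fin k → F))} (hA : IsArc A)
    (hn : ¬ ∃ C, IsNRC C ∧ A ⊆ C) : A.ncard ≤ maxNonrational F k := by
  refine le_csSup ⟨Nat.card (Submodule F (Fin k → F)), ?_⟩ ⟨A, hA, rfl, hn⟩
  rintro _ ⟨B, -, rfl, -⟩
  rw [← Set.ncard_univ]
  exact Set.ncard_le_ncard (Set.subset_univ B) (Set.toFinite _)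

theorem max_iff {k : ℕ} [Finite F] {n : ℕ} (hn : 0 < n) :
    (∀ A : Set (Submodule F (Fin k → F)), IsArc A → n ≤ A.ncard → ∃ C, IsNRC C ∧ A ⊆ C) ↔
      maxNonrational F k < n := by
  constructor
  · intro h
    by_contra hcon
    push Not at hcon
    rcases Set.eq_empty_or_nonempty {j | ∃ A : Set (Submodule F (Fin k → F)),
        IsArc A ∧ A.ncard = j ∧ ¬ ∃ C, IsNRC C ∧ A ⊆ C} with he | hne
    · unfold maxNonrational at hcon
      rw [he, csSup_empty] at hcon
      exact absurd hcon (by simpa using hn.ne')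
    · obtain ⟨A, hA, h1, h2⟩ := Nat.sSup_mem hne ⟨Nat.card (Submodule F (Fin k → F)), by
        rintro _ ⟨B, -, rfl, -⟩
        rw [← Set.ncard_univ]
        exact Set.ncard_le_ncard (Set.subset_univ B) (Set.toFinite _)⟩
      refine h2 (h A hA ?_)
      rw [h1]
      exact hcon
  · intro h A hA hAn
    by_contra hcon
    have := le_max hA hcon
    omega

end Pool.Agent.Helper17.NRC
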